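import Pool.Agent.TH905.HS.Fin5

set_option autoImplicit false

/-!
Hyperelliptic curves with rational Weierstrass points: counting the configurations for which the
inequality with a small exponent holds for all twists.
-/

namespace Pool.Agent.TH905.HS

open Finset NumberField IsDedekindDomain Pool.Agent.H691R3 Height
  LinearAlgebra.Projectivization Pool.Agent.W318

/-- the exponent below the threshold -/
noncomputable def expoT (g : ℕ) (κ : ℝ) : ℝ :=
  max (2 * g - 1 / 2) (4 * g / (2 + (2 * g + 1) * (1 - κ / (4 * g + 4))))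

lemma expoT_lt {g : ℕ} (hg : 2 ≤ g) {κ : ℝ} (hκ : κ < 4 * g + 4) : expoT g κ < 2 * g := by
  have hg' : (2 : ℝ) ≤ g := by exact_mod_cast hg
  have hG : (0 : ℝ) < 4 * g + 4 := by positivity
  have hρ : 0 < 1 - κ / (4 * g + 4) := by
    rw [sub_pos, div_lt_one hG]
    exact hκ
  refine max_lt (by linarith) ?_
  have h1 : 0 < (2 * (g : ℝ) + 1) * (1 - κ / (4 * g + 4)) := mul_pos (by positivity) hρ
  rw [div_lt_iff₀ (by linarith)]
  nlinarith

theorem pers_count (K : Type) [Field K] [NumberField K] {g n : ℕ} (hg : 2 ≤ g)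
    (hn : n + 1 = 2 * g) (κ : ℝ) (hκ0 : 0 ≤ κ) (hκ : κ < 4 * g + 4) (c δ : ℝ) (hc : 0 < c)
    (hδ : 0 < δ) :
    ∃ M : ℝ, ∀ B : ℝ, 1 ≤ B → (Pers K g n κ c B).Finite ∧
      ((Pers K g n κ c B).ncard : ℝ) ≤ M * B ^ (Module.finrank ℚ K * expoT g κ + δ) := by
  have hD : (0 : ℝ) < Module.finrank ℚ K := by exact_mod_cast Module.finrank_pos
  have hg' : (2 : ℝ) ≤ g := by exact_mod_cast hg
  have hn' : (n : ℝ) + 1 = 2 * g := by exact_mod_cast hn
  have hG : (0 : ℝ) < 4 * g + 4 := by positivity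
  set ρ : ℝ := 1 - κ / (4 * g + 4) with hρdef
  have hρ : 0 < ρ := by
    rw [hρdef, sub_pos, div_lt_one hG]
    exact hκ
  have h1 : 0 < (2 * (g : ℝ) + 1) * ρ := mul_pos (by positivity) hρ
  have h2 : 0 < 2 + (2 * (g : ℝ) + 1) * ρ := by linarith
  set κ₀ : ℝ := min (1 / 2) (2 * g * ((2 * g + 1) * ρ) / (2 + (2 * g + 1) * ρ)) with hκ₀
  have h0 : 0 ≤ κ₀ := le_min (by norm_num) (by positivity)
  have hle : κ₀ ≤ 2 * g * ((2 * g + 1) * ρ) / (2 + (2 * g + 1) * ρ) := min_le_right _ _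
  have hcond : 2 * κ₀ ≤ ρ * (n + 2) * (n + 1 - κ₀) := by
    rw [le_div_iff₀ h2] at hle
    have e : (n : ℝ) = 2 * g - 1 := by linarith
    rw [e]
    linarith
  obtain ⟨S, C', hC'⟩ := pers_sub K hn hg κ κ₀ c hκ0 hc h0 (min_le_left _ _) hcond
  refine count_of_sub hD (Pers K g n κ c) _ hC' ?_
  have h := Pool.Agent.W232.VA.main2 (arr K n) arr_ne S κ₀ C'
    (δ / Module.finrank ℚ K) h0 (min_le_left _ _) (by positivity)
  have he : (n : ℝ) + 1 - κ₀ = expoT g κ := by
    have hid : 4 * (g : ℝ) / (2 + (2 * g + 1) * ρ) =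
        2 * g - 2 * g * ((2 * g + 1) * ρ) / (2 + (2 * g + 1) * ρ) := by
      field_simp
      ring
    unfold expoT
    rw [hκ₀, hn', ← hρdef, hid]
    rcases le_total (1 / 2 : ℝ) (2 * g * ((2 * g + 1) * ρ) / (2 + (2 * g + 1) * ρ)) with h3 | h3
    · rw [min_eq_left h3, max_eq_left]
      linarith
    · rw [min_eq_right h3, max_eq_right]
      linarith
  rw [he] at h
  exact h

end Pool.Agent.TH905.HS
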