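import Pool.Agent.TH905.HS.Loc1

set_option autoImplicit false

/-!
Hyperelliptic curves with rational Weierstrass points: an upper bound for the minimal discriminant.
-/

namespace Pool.Agent.TH905.HS

open Polynomial Finset NumberField IsDedekindDomain WithZero Pool.Agent.W318

section

variable {K : Type} [Field K] [NumberField K]

lemma log_absW (v : HeightOneSpectrum (𝓞 K)) {x : K} {k : ℤ} (h : v.valuation K x = exp k) :
    Real.log (absW v x) = k * Real.log 2 := by
  rw [absW_exp v h, Real.log_zpow]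

lemma log_fv_absW (v : HeightOneSpectrum (𝓞 K)) {x : K} (hx : x ≠ 0) :
    Real.log (Pool.Agent.H691R3.fv v x) * Real.log 2 =
      Real.log (absW v x) * Real.log (Pool.Agent.H691R3.Nv v) := by
  obtain ⟨k, hk⟩ := exists_exp v hx
  rw [fv_of_exp v hk, log_absW v hk, Real.log_zpow]
  ring

lemma sum_det {m : ℕ} (e : Fin m → K) (f : K → ℝ) (hf0 : f 1 = 0) (hf1 : f (-1) = 0) :
    ∑ i, ∑ j ∈ univ.erase i, f (al K m i * be e j - al K m j * be e i) =
      ∑ i, ∑ j ∈ univ.erase i, f (e i - e j) := by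
  classical
  have e1 : ∀ (q : ℕ) (h : Fin q → Fin q → ℝ), ∑ i, ∑ j ∈ univ.erase i, h i j =
      ∑ i, ∑ j, if j = i then 0 else h i j := by
    intro q h
    refine Finset.sum_congr rfl fun i _ => ?_
    rw [← Finset.add_sum_erase univ (fun j => if j = i then 0 else h i j) (mem_univ i), if_pos rfl,
      zero_add]
    exact Finset.sum_congr rfl fun j hj => (if_neg (Finset.ne_of_mem_erase hj)).symm
  rw [e1, e1, Fin.sum_univ_succ]
  have e2 : ∑ j : Fin (m + 1), (if j = 0 then (0 : ℝ) else
      f (al K m 0 * be e j - al K m j * be e 0)) = 0 := by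
    refine Finset.sum_eq_zero fun j _ => ?_
    rw [det_eq]
    refine Fin.cases ?_ (fun j' => ?_) j
    · simp
    · simp [hf1]
  rw [e2, zero_add]
  refine Finset.sum_congr rfl fun i _ => ?_
  rw [Fin.sum_univ_succ]
  have e3 : (if (0 : Fin (m + 1)) = i.succ then (0 : ℝ) else
      f (al K m i.succ * be e 0 - al K m 0 * be e i.succ)) = 0 := by
    rw [if_neg (Fin.succ_ne_zero i).symm, det_eq]
    simpa using hf0
  rw [e3, zero_add]
  refine Finset.sum_congr rfl fun j _ => ?_
  rw [det_eq]
  by_cases h : j = i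
  · rw [if_pos h, if_pos (by rw [h])]
  · rw [if_neg h, if_neg fun h' => h (Fin.succ_injective _ h')]
    simp

/-- an upper bound for the exponent of the minimal discriminant -/
theorem minExp_bound_k {g m : ℕ} (hm : m = 2 * g + 1) {d : K} (hd : d ≠ 0)
    {e : Fin m → K} (he : Function.Injective e) (v : HeightOneSpectrum (𝓞 K)) {t : ℕ}
    (ht : v.valuation K (2 : K) = exp (-(t : ℤ))) {τ : K} (hτ : τ ≠ 0)
    (hmax : ∀ i, absW v (e i) ≤ absW v τ) (hg : 1 ≤ g) {k : ℤ}
    (hk : v.valuation K (d * τ ^ m) = exp k) :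
    (minExp g (pol d e) v : ℝ) * Real.log 2 ≤ 4 * g * t * Real.log 2 -
      2 * (m * ((k - 2 * ((k + 1) / 2) : ℤ) * Real.log 2)) +
      ∑ i, ∑ j ∈ univ.erase i, (Real.log (absW v τ) - Real.log (absW v (e i - e j))) := by
  classical
  have hF := pol_isHyp hm hd he
  obtain ⟨ϖ, hϖ⟩ := v.valuation_exists_uniformizer K
  have hϖ0 : ϖ ≠ 0 := by
    rintro rfl
    rw [map_zero] at hϖ
    exact exp_ne_zero hϖ.symm
  set s : K := ϖ ^ ((k + 1) / 2) with hs
  have hs0 : s ≠ 0 := zpow_ne_zero _ hϖ0
  have hvs : v.valuation K s = exp (-((k + 1) / 2)) := by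
    rw [hs, map_zpow₀, hϖ, ← exp_zsmul]
    congr 1
    simp
  have hnn : g + 1 + (g + 1) = m + 1 := by omega
  have hu : s ^ 2 * d ≠ 0 := mul_ne_zero (pow_ne_zero 2 hs0) hd
  -- the new form
  set F' : K[X] := C (s ^ 2) * act (g + 1 + (g + 1)) τ 0 0 1 (pol d e) with hF'
  have heqv : Eqv (g + 1) (pol d e) F' := ⟨τ, 0, 0, 1, s, by simpa using hτ, hs0, rfl⟩
  set α' : Fin (m + 1) → K := fun i => al K m i * τ + be e i * 0 with hα'
  set β' : Fin (m + 1) → K := fun i => al K m i * 0 + be e i * 1 with hβ'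
  have hF'' : F' = C (s ^ 2 * d) * ∏ i, (C (α' i) * X + C (β' i)) := by
    rw [hF', hnn, pol_eq, act_prod (m + 1) (Or.inr one_ne_zero), ← mul_assoc, ← C_mul]
  have hna := absW_na v
  have hlogs : Real.log (absW v (s ^ 2 * d)) + m * Real.log (absW v τ) =
      (k - 2 * ((k + 1) / 2) : ℤ) * Real.log 2 := by
    have e1 := log_absW v hk
    have e2 := log_absW v hvs
    rw [map_mul, map_pow, Real.log_mul ((absW v).pos hd).ne' (pow_pos ((absW v).pos hτ) _).ne',
      Real.log_pow] at e1
    rw [map_mul, map_pow, Real.log_mul (pow_pos ((absW v).pos hs0) _).ne' ((absW v).pos hd).ne',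
      Real.log_pow, e2]
    push_cast at e1 e2 ⊢
    linear_combination e1
  have hlog2 : 0 < Real.log 2 := Real.log_pos one_lt_two
  have hε : (k - 2 * ((k + 1) / 2) : ℤ) ≤ 0 ∧ -1 ≤ (k - 2 * ((k + 1) / 2) : ℤ) := by
    constructor <;> omega
  have hint : ∀ i, v.valuation K (F'.coeff i) ≤ 1 := by
    have e1 : F'.gaussNorm (absW v) 1 ≤ 1 := by
      rw [hF'', gaussNorm_prod_lin hna, Fin.prod_univ_succ]
      have e2 : ∀ i : Fin m, max (absW v (α' i.succ)) (absW v (β' i.succ)) = absW v τ := by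
        intro i
        simp only [hα', hβ', al, be, Fin.cons_succ, one_mul, mul_zero, add_zero, zero_add, mul_one,
          map_neg_eq_map]
        exact max_eq_left (hmax i)
      have e3 : max (absW v (α' 0)) (absW v (β' 0)) = 1 := by
        simp [hα', hβ', al, be]
      rw [e3, one_mul, Finset.prod_congr rfl fun i _ => e2 i, Finset.prod_const, Finset.card_univ,
        Fintype.card_fin]
      have e4 : 0 < absW v (s ^ 2 * d) * absW v τ ^ m :=
        mul_pos ((absW v).pos hu) (pow_pos ((absW v).pos hτ) _)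
      rw [← Real.log_nonpos_iff e4.le, Real.log_mul ((absW v).pos hu).ne'
        (pow_pos ((absW v).pos hτ) _).ne', Real.log_pow, hlogs]
      have : ((k - 2 * ((k + 1) / 2) : ℤ) : ℝ) ≤ 0 := by exact_mod_cast hε.1
      exact mul_nonpos_of_nonpos_of_nonneg this hlog2.le
    intro i
    exact (absW_le_one_iff v _).mp ((coeff_le_gaussNorm F' i).trans e1)
  obtain ⟨k', hk', _, hle⟩ := minExp_le hF v heqv hint ht
  -- the discriminant of the new form
  have hdet' : ∀ i j, α' i * β' j - α' j * β' i = τ * (al K m i * be e j - al K m j * be e i) := by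
    intro i j
    simp only [hα', hβ']
    ring
  have hne' : ∀ i j, i ≠ j → α' i * β' j - α' j * β' i ≠ 0 := by
    intro i j hij
    rw [hdet']
    exact mul_ne_zero hτ (det_ne he i j hij)
  have hdisc : Real.log (absW v (discN (m + 1) F')) = 2 * m * Real.log (absW v (s ^ 2 * d)) +
      (m + 1) * m * Real.log (absW v τ) +
        ∑ i, ∑ j ∈ univ.erase i, Real.log (absW v (e i - e j)) := by
    have e1 := abs_discN_prod_lin (absW v) hu α' β' hne' (by rw [Fintype.card_fin]; omega)
    rw [Fintype.card_fin, Nat.add_sub_cancel, ← hF''] at e1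
    have hp : ∀ i, ∀ j ∈ univ.erase i, absW v (α' i * β' j - α' j * β' i) ≠ 0 :=
      fun i j hj => ((absW v).pos (hne' i j (Finset.ne_of_mem_erase hj).symm)).ne'
    rw [e1, Real.log_mul (pow_pos ((absW v).pos hu) _).ne'
      (Finset.prod_ne_zero_iff.mpr fun i _ => Finset.prod_ne_zero_iff.mpr (hp i)), Real.log_pow,
      Real.log_prod fun i _ => Finset.prod_ne_zero_iff.mpr (hp i)]
    have e2 : ∀ i : Fin (m + 1), Real.log (∏ j ∈ univ.erase i,
        absW v (α' i * β' j - α' j * β' i)) = m * Real.log (absW v τ) +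
          ∑ j ∈ univ.erase i, Real.log (absW v (al K m i * be e j - al K m j * be e i)) := by
      intro i
      rw [Real.log_prod (hp i)]
      have e3 : ∀ j ∈ univ.erase i, Real.log (absW v (α' i * β' j - α' j * β' i)) =
          Real.log (absW v τ) + Real.log (absW v (al K m i * be e j - al K m j * be e i)) := by
        intro j hj
        rw [hdet', map_mul, Real.log_mul ((absW v).pos hτ).ne'
          ((absW v).pos (det_ne he i j (Finset.ne_of_mem_erase hj).symm)).ne']
      rw [Finset.sum_congr rfl e3, Finset.sum_add_distrib, Finset.sum_const,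
        Finset.card_erase_of_mem (mem_univ _), Finset.card_univ, Fintype.card_fin,
        Nat.add_sub_cancel, nsmul_eq_mul]
    rw [Finset.sum_congr rfl fun i _ => e2 i, Finset.sum_add_distrib, Finset.sum_const,
      Finset.card_univ, Fintype.card_fin, nsmul_eq_mul,
      sum_det e (fun x => Real.log (absW v x)) (by simp) (by simp)]
    push_cast
    ring
  rw [hnn] at hk'
  rw [log_absW v hk'] at hdisc
  have hcount : ∑ i : Fin m, ∑ j ∈ univ.erase i, (Real.log (absW v τ) -
      Real.log (absW v (e i - e j))) = m * (m - 1) * Real.log (absW v τ) -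
        ∑ i, ∑ j ∈ univ.erase i, Real.log (absW v (e i - e j)) := by
    have e1 : ∀ i : Fin m, ∑ j ∈ univ.erase i, (Real.log (absW v τ) -
        Real.log (absW v (e i - e j))) = (m - 1) * Real.log (absW v τ) -
          ∑ j ∈ univ.erase i, Real.log (absW v (e i - e j)) := by
      intro i
      have hm1 : 1 ≤ m := by omega
      rw [Finset.sum_sub_distrib, Finset.sum_const, Finset.card_erase_of_mem (mem_univ _),
        Finset.card_univ, Fintype.card_fin, nsmul_eq_mul, Nat.cast_sub hm1, Nat.cast_one]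
    rw [Finset.sum_congr rfl fun i _ => e1 i, Finset.sum_sub_distrib, Finset.sum_const,
      Finset.card_univ, Fintype.card_fin, nsmul_eq_mul]
    ring
  rw [hcount]
  have hle' : (minExp g (pol d e) v : ℝ) ≤ 4 * g * t + k' := by exact_mod_cast hle
  have h7 : (k' : ℝ) * Real.log 2 = -(2 * (m * ((k - 2 * ((k + 1) / 2) : ℤ) * Real.log 2))) +
      (m * (m - 1) * Real.log (absW v τ) -
        ∑ i, ∑ j ∈ univ.erase i, Real.log (absW v (e i - e j))) := by
    rw [← hlogs]
    push_cast at hdisc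
    linear_combination -hdisc
  have h8 := mul_le_mul_of_nonneg_right hle' hlog2.le
  linarith

/-- an upper bound for the exponent of the minimal discriminant, any parity -/
theorem minExp_bound {g m : ℕ} (hm : m = 2 * g + 1) {d : K} (hd : d ≠ 0)
    {e : Fin m → K} (he : Function.Injective e) (v : HeightOneSpectrum (𝓞 K)) {t : ℕ}
    (ht : v.valuation K (2 : K) = exp (-(t : ℤ))) {τ : K} (hτ : τ ≠ 0)
    (hmax : ∀ i, absW v (e i) ≤ absW v τ) (hg : 1 ≤ g) :
    (minExp g (pol d e) v : ℝ) * Real.log 2 ≤ (4 * g * t + 2 * m) * Real.log 2 +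
      ∑ i, ∑ j ∈ univ.erase i, (Real.log (absW v τ) - Real.log (absW v (e i - e j))) := by
  obtain ⟨k, hk⟩ := exists_exp v (mul_ne_zero hd (pow_ne_zero m hτ) : d * τ ^ m ≠ 0)
  have h := minExp_bound_k hm hd he v ht hτ hmax hg hk
  have hlog2 : 0 < Real.log 2 := Real.log_pos one_lt_two
  have hε : -1 ≤ (k - 2 * ((k + 1) / 2) : ℤ) := by omega
  have h5 : -((k - 2 * ((k + 1) / 2) : ℤ) : ℝ) ≤ 1 := by
    have : (-1 : ℝ) ≤ ((k - 2 * ((k + 1) / 2) : ℤ) : ℝ) := by exact_mod_cast hε
    linarith
  have h6 : (m : ℝ) * (-((k - 2 * ((k + 1) / 2) : ℤ) : ℝ) * Real.log 2) ≤ m * Real.log 2 := by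
    refine mul_le_mul_of_nonneg_left ?_ (Nat.cast_nonneg _)
    nlinarith
  linarith

/-- an upper bound for the exponent of the minimal discriminant, even parity -/
theorem minExp_bound_even {g m : ℕ} (hm : m = 2 * g + 1) {d : K} (hd : d ≠ 0)
    {e : Fin m → K} (he : Function.Injective e) (v : HeightOneSpectrum (𝓞 K)) {t : ℕ}
    (ht : v.valuation K (2 : K) = exp (-(t : ℤ))) {τ : K} (hτ : τ ≠ 0)
    (hmax : ∀ i, absW v (e i) ≤ absW v τ) (hg : 1 ≤ g) {k : ℤ}
    (hk : v.valuation K (d * τ ^ m) = exp k) (hev : Even k) :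
    (minExp g (pol d e) v : ℝ) * Real.log 2 ≤ 4 * g * t * Real.log 2 +
      ∑ i, ∑ j ∈ univ.erase i, (Real.log (absW v τ) - Real.log (absW v (e i - e j))) := by
  have h := minExp_bound_k hm hd he v ht hτ hmax hg hk
  obtain ⟨q, hq⟩ := hev
  have h1 : (k - 2 * ((k + 1) / 2) : ℤ) = 0 := by omega
  rw [h1] at h
  simp only [Int.cast_zero, zero_mul, mul_zero, sub_zero] at h
  exact h

end

end Pool.Agent.TH905.HS
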