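import Pool.Agent.TH905.HS.Form
import Pool.Agent.TH905.HS.Loc2
import Pool.Agent.TH905.VF.Prox

set_option autoImplicit false

/-!
Hyperelliptic curves with rational Weierstrass points: the global inequality.
-/

namespace Pool.Agent.TH905.HS

open Finset NumberField IsDedekindDomain Pool.Agent.H691R3 Pool.Agent.W232.VA Height

section height

variable {K : Type*} [Field K] [NumberField K] {n : ℕ}

lemma exists_supp' {x : Fin (n + 1) → K} (hx : Function.Injective (root x)) :
    ∃ T : Finset (HeightOneSpectrum (𝓞 K)), ∀ v ∉ T, (∀ l, fv v (x l) = 1) ∧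
      ∀ i j, i ≠ j → fv v (root x i - root x j) = 1 := by
  classical
  obtain ⟨T1, hT1⟩ := Pool.Agent.TH905.VF.exists_supp x (rep_ne hx)
  have h2 : ∀ p : Fin (n + 2) × Fin (n + 2), ∃ T : Finset (HeightOneSpectrum (𝓞 K)),
      p.1 ≠ p.2 → ∀ v ∉ T, fv v (root x p.1 - root x p.2) = 1 := by
    intro p
    by_cases hp : p.1 = p.2
    · exact ⟨∅, fun h => absurd hp h⟩
    · refine ⟨(fv_support_finite (sub_ne_zero.mpr (hx.ne hp))).toFinset, fun _ v hv => ?_⟩
      by_contra hne
      exact hv ((Set.Finite.mem_toFinset _).mpr hne)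
  choose T2 hT2 using h2
  refine ⟨T1 ∪ univ.biUnion T2, fun v hv => ?_⟩
  rw [mem_union, not_or, mem_biUnion] at hv
  refine ⟨fun l => hT1 v hv.1 l, fun i j hij => hT2 (i, j) hij v fun h => hv.2 ⟨(i, j), mem_univ _, h⟩⟩

lemma lam_split (f : AbsoluteValue K ℝ) {x : Fin (n + 1) → K} (hx : Function.Injective (root x))
    {i j : Fin (n + 2)} (hij : i ≠ j) : lam f (form K i j) x =
      Real.log (⨆ l, f (x l)) - Real.log (f (root x i - root x j)) := by
  rw [lam_form f hij, Real.log_div (sup_pos f (rep_ne' hx)).ne'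
    (f.pos (sub_ne_zero.mpr (hx.ne hij))).ne']

lemma height_id {x : Fin (n + 1) → K} (hx : Function.Injective (root x))
    (T : Finset (HeightOneSpectrum (𝓞 K))) (hT : ∀ v ∉ T, (∀ l, fv v (x l) = 1) ∧
      ∀ i j, i ≠ j → fv v (root x i - root x j) = 1) :
    ∑ w : InfinitePlace K, (w.mult : ℝ) * Lam w.1 x + ∑ v ∈ T, Lam (fv v) x =
      (n + 2) * (n + 1) * logHeight x := by
  classical
  have hone : ∀ i j : Fin (n + 2), i ≠ j →
      ∑ w : InfinitePlace K, (w.mult : ℝ) * lam w.1 (form K i j) x +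
        ∑ v ∈ T, lam (fv v) (form K i j) x = logHeight x := by
    intro i j hij
    rw [Pool.Agent.TH905.VF.logHeight_eq_sum x (rep_ne hx) (Nat.succ_pos n) T
      (fun v hv => (hT v hv).1)]
    have h0 := Pool.Agent.TH905.VF.product_formula (sub_ne_zero.mpr (hx.ne hij)) T
      fun v hv => (hT v hv).2 i j hij
    rw [Finset.sum_congr rfl fun v _ => lam_split (fv v) hx hij, Finset.sum_sub_distrib]
    have h1 : ∑ w : InfinitePlace K, (w.mult : ℝ) * lam w.1 (form K i j) x =
        ∑ w : InfinitePlace K, (w.mult : ℝ) * Real.log (⨆ j, w.1 (x j)) -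
          ∑ w : InfinitePlace K, (w.mult : ℝ) * Real.log (w.1 (root x i - root x j)) := by
      rw [← Finset.sum_sub_distrib]
      refine Finset.sum_congr rfl fun w _ => ?_
      rw [lam_split w.1 hx hij]
      ring
    rw [h1]
    linear_combination -h0
  have hcount : ∑ i : Fin (n + 2), ∑ _j ∈ univ.erase i, logHeight x =
      (n + 2) * (n + 1) * logHeight x := by
    have : ∀ i : Fin (n + 2), ∑ _j ∈ univ.erase i, logHeight x = (n + 1) * logHeight x := by
      intro i
      rw [Finset.sum_const, Finset.card_erase_of_mem (mem_univ _), Finset.card_univ,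
        Fintype.card_fin, nsmul_eq_mul]
      push_cast
      ring
    rw [Finset.sum_congr rfl fun i _ => this i, Finset.sum_const, Finset.card_univ,
      Fintype.card_fin, nsmul_eq_mul]
    push_cast
    ring
  rw [← hcount]
  have h2 : ∑ i : Fin (n + 2), ∑ _j ∈ univ.erase i, logHeight x =
      ∑ i : Fin (n + 2), ∑ j ∈ univ.erase i,
        (∑ w : InfinitePlace K, (w.mult : ℝ) * lam w.1 (form K i j) x +
        ∑ v ∈ T, lam (fv v) (form K i j) x) :=
    Finset.sum_congr rfl fun i _ => Finset.sum_congr rfl fun j hj =>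
      (hone i j (Finset.ne_of_mem_erase hj).symm).symm
  rw [h2]
  unfold Lam
  simp only [Finset.sum_add_distrib]
  congr 1
  · have h3 : ∀ w : InfinitePlace K, (w.mult : ℝ) * ∑ i : Fin (n + 2), ∑ j ∈ univ.erase i,
        lam w.1 (form K i j) x = ∑ i : Fin (n + 2), ∑ j ∈ univ.erase i,
          (w.mult : ℝ) * lam w.1 (form K i j) x := by
      intro w
      rw [Finset.mul_sum]
      exact Finset.sum_congr rfl fun i _ => Finset.mul_sum _ _ _
    rw [Finset.sum_congr rfl fun w _ => h3 w, Finset.sum_comm]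
    exact Finset.sum_congr rfl fun i _ => Finset.sum_comm
  · rw [Finset.sum_comm]
    exact Finset.sum_congr rfl fun i _ => Finset.sum_comm

lemma arch_ge (w : InfinitePlace K) {x : Fin (n + 1) → K} (hx : Function.Injective (root x)) :
    -((n + 2) * (n + 1) * Real.log 2) ≤ Lam w.1 x := by
  have h1 : ∀ i j : Fin (n + 2), i ≠ j → -Real.log 2 ≤ lam w.1 (form K i j) x := by
    intro i j hij
    have hs := sup_pos w.1 (rep_ne' hx)
    have hd := w.1.pos (sub_ne_zero.mpr (hx.ne hij))
    rw [lam_form w.1 hij, ← Real.log_inv]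
    refine Real.log_le_log (by norm_num) ?_
    rw [le_div_iff₀ hd]
    have h2 : w.1 (root x i - root x j) ≤ w.1 (root x i) + w.1 (root x j) := by
      have := w.1.add_le (root x i) (-root x j)
      rwa [← sub_eq_add_neg, w.1.map_neg] at this
    have h3 := root_le w.1 x i
    have h4 := root_le w.1 x j
    linarith
  unfold Lam
  have h5 : ∑ i : Fin (n + 2), ∑ _j ∈ univ.erase i, (-Real.log 2) ≤
      ∑ i, ∑ j ∈ univ.erase i, lam w.1 (form K i j) x :=
    Finset.sum_le_sum fun i _ => Finset.sum_le_sum fun j hj =>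
      h1 i j (Finset.ne_of_mem_erase hj).symm
  refine le_trans (le_of_eq ?_) h5
  have : ∀ i : Fin (n + 2), ∑ _j ∈ univ.erase i, (-Real.log 2) = (n + 1) * (-Real.log 2) := by
    intro i
    rw [Finset.sum_const, Finset.card_erase_of_mem (mem_univ _), Finset.card_univ,
      Fintype.card_fin, nsmul_eq_mul]
    push_cast
    ring
  rw [Finset.sum_congr rfl fun i _ => this i, Finset.sum_const, Finset.card_univ,
    Fintype.card_fin, nsmul_eq_mul]
  push_cast
  ring

/-- the sum of the local heights at finitely many primes -/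
lemma sum_Lam_le {x : Fin (n + 1) → K} (hx : Function.Injective (root x))
    (R : Finset (HeightOneSpectrum (𝓞 K))) :
    ∑ v ∈ R, Lam (fv v) x ≤ (n + 2) * (n + 1) * logHeight x +
      (∑ w : InfinitePlace K, (w.mult : ℝ)) * ((n + 2) * (n + 1) * Real.log 2) := by
  classical
  obtain ⟨T, hT⟩ := exists_supp' hx
  have h := height_id hx (T ∪ R) fun v hv => hT v fun h => hv (Finset.mem_union_left _ h)
  have h1 : ∑ v ∈ R, Lam (fv v) x ≤ ∑ v ∈ T ∪ R, Lam (fv v) x :=
    Finset.sum_le_sum_of_subset_of_nonneg Finset.subset_union_right fun v _ _ => Lam_nonneg v hx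
  have h2 : -((∑ w : InfinitePlace K, (w.mult : ℝ)) * ((n + 2) * (n + 1) * Real.log 2)) ≤
      ∑ w : InfinitePlace K, (w.mult : ℝ) * Lam w.1 x := by
    rw [Finset.sum_mul, ← Finset.sum_neg_distrib]
    refine Finset.sum_le_sum fun w _ => ?_
    have := mul_le_mul_of_nonneg_left (arch_ge w hx) (Nat.cast_nonneg w.mult : (0 : ℝ) ≤ w.mult)
    linarith
  linarith

end height

section curve

open Pool.Agent.W318 WithZero Polynomial

variable {K : Type} [Field K] [NumberField K] {n g : ℕ}

lemma absW_le_of_fv {v : HeightOneSpectrum (𝓞 K)} {a b : K} (h : fv v a ≤ fv v b) :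
    absW v a ≤ absW v b := by
  by_cases ha : a = 0
  · rw [ha, map_zero]; exact (absW v).nonneg _
  have hb : b ≠ 0 := by
    rintro rfl
    rw [map_zero] at h
    exact absurd ((fv v).pos ha) (not_lt.mpr h)
  obtain ⟨k, hk⟩ := exists_exp v ha
  obtain ⟨l, hl⟩ := exists_exp v hb
  have hN : 1 < Nv v := by linarith [two_le_Nv v]
  rw [fv_of_exp v hk, fv_of_exp v hl, zpow_le_zpow_iff_right₀ hN] at h
  rw [absW_exp v hk, absW_exp v hl, zpow_le_zpow_iff_right₀ (by norm_num)]
  exact h

/-- comparison of the two normalisations of the absolute values -/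
lemma Lam_conv {x : Fin (n + 1) → K} (hx : Function.Injective (root x))
    (v : HeightOneSpectrum (𝓞 K)) {l : Fin (n + 1)} (hl : (⨆ j, fv v (x j)) = fv v (x l)) :
    Lam (fv v) x * Real.log 2 = (∑ i, ∑ j ∈ univ.erase i,
      (Real.log (absW v (x l)) - Real.log (absW v (root x i - root x j)))) * Real.log (Nv v) := by
  classical
  have hτ := rep_ne hx l
  unfold Lam
  rw [Finset.sum_mul, Finset.sum_mul]
  refine Finset.sum_congr rfl fun i _ => ?_
  rw [Finset.sum_mul, Finset.sum_mul]
  refine Finset.sum_congr rfl fun j hj => ?_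
  have hij := (Finset.ne_of_mem_erase hj).symm
  rw [lam_split (fv v) hx hij, hl]
  have e1 := log_fv_absW v hτ
  have e2 := log_fv_absW v (sub_ne_zero.mpr (hx.ne hij))
  linear_combination e1 - e2

/-- the bound for the minimal discriminant in terms of the local heights -/
lemma minExp_le_Lam (hn : n + 1 = 2 * g) (hg : 2 ≤ g) {d : K} (hd : d ≠ 0)
    {x : Fin (n + 1) → K} (hx : Function.Injective (root x)) (v : HeightOneSpectrum (𝓞 K)) {t : ℕ}
    (ht : v.valuation K (2 : K) = exp (-(t : ℤ))) :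
    (minExp g (pol d (root x)) v : ℝ) * Real.log (Nv v) ≤
      (4 * g * t + 2 * (n + 2)) * Real.log (Nv v) + Lam (fv v) x := by
  classical
  obtain ⟨l, hl⟩ := sup_att (fv v) x
  have hτ := rep_ne hx l
  have hmax : ∀ i, absW v (root x i) ≤ absW v (x l) := fun i =>
    absW_le_of_fv (by rw [← hl]; exact root_le (fv v) x i)
  have h := minExp_bound (g := g) (m := n + 2) (by omega) hd hx v ht hτ hmax (by omega)
  have hlog2 : 0 < Real.log 2 := Real.log_pos one_lt_two
  have hN := log_Nv_pos v
  have h1 := Lam_conv hx v hl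
  have h2 := mul_le_mul_of_nonneg_right h hN.le
  have h3 : ((minExp g (pol d (root x)) v : ℝ) * Real.log (Nv v)) * Real.log 2 ≤
      ((4 * g * t + 2 * (n + 2)) * Real.log (Nv v) + Lam (fv v) x) * Real.log 2 := by
    rw [add_mul, h1]
    push_cast at h2 ⊢
    linarith
  exact le_of_mul_le_mul_right h3 hlog2

lemma hyp (hn : n + 1 = 2 * g) {d : K} (hd : d ≠ 0) {x : Fin (n + 1) → K}
    (hx : Function.Injective (root x)) : IsHyp g (pol d (root x)) :=
  pol_isHyp (by omega) hd hx

lemma log_badNorm (hn : n + 1 = 2 * g) {d : K} (hd : d ≠ 0) {x : Fin (n + 1) → K}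
    (hx : Function.Injective (root x)) :
    Real.log (badNorm g (pol d (root x))) =
      ∑ v ∈ (finite_bad (hyp hn hd hx)).toFinset, Real.log (Nv v) := by
  rw [badNorm_eq (finite_bad (hyp hn hd hx)).toFinset fun v => by simp, Nat.cast_prod,
    Real.log_prod]
  · rfl
  · intro v _
    exact (lt_of_lt_of_le zero_lt_two (two_le_Nv v)).ne'

lemma log_discNorm (hn : n + 1 = 2 * g) {d : K} (hd : d ≠ 0) {x : Fin (n + 1) → K}
    (hx : Function.Injective (root x)) :
    Real.log (discNorm g (pol d (root x))) =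
      ∑ v ∈ (finite_bad (hyp hn hd hx)).toFinset,
        (minExp g (pol d (root x)) v : ℝ) * Real.log (Nv v) := by
  rw [discNorm_eq (finite_bad (hyp hn hd hx)).toFinset fun v hv => by simpa using hv,
    Nat.cast_prod, Real.log_prod]
  · refine Finset.sum_congr rfl fun v _ => ?_
    rw [Nat.cast_pow, Real.log_pow]
    rfl
  · intro v _
    rw [Nat.cast_pow]
    exact pow_ne_zero _ (lt_of_lt_of_le zero_lt_two (two_le_Nv v)).ne'

lemma sum_le_badNorm (hn : n + 1 = 2 * g) {d : K} (hd : d ≠ 0) {x : Fin (n + 1) → K}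
    (hx : Function.Injective (root x)) (R : Finset (HeightOneSpectrum (𝓞 K)))
    (hR : ∀ v ∈ R, minExp g (pol d (root x)) v ≠ 0) :
    ∑ v ∈ R, Real.log (Nv v) ≤ Real.log (badNorm g (pol d (root x))) := by
  rw [log_badNorm hn hd hx]
  refine Finset.sum_le_sum_of_subset_of_nonneg (fun v hv => ?_) fun v _ _ => (log_Nv_pos v).le
  rw [Set.Finite.mem_toFinset]
  exact hR v hv

/-- odd primes at which the local heights of the differences are not all zero are bad -/
lemma bad_of_ne (hn : n + 1 = 2 * g) (hg : 2 ≤ g) {d : K} (hd : d ≠ 0) {x : Fin (n + 1) → K}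
    (hx : Function.Injective (root x)) (v : HeightOneSpectrum (𝓞 K))
    (h2 : v.valuation K (2 : K) = 1) {i j i' j' : Fin (n + 2)} (hij : i ≠ j) (hij' : i' ≠ j')
    (hne : fv v (root x i - root x j) ≠ fv v (root x i' - root x j')) :
    minExp g (pol d (root x)) v ≠ 0 := by
  intro h0
  apply hne
  have h := equal_of_good hg (by omega : n + 2 = 2 * g + 1) hd hx v h2 h0 i j i' j' hij hij'
  obtain ⟨k, hk⟩ := exists_exp v (sub_ne_zero.mpr (hx.ne hij))
  rw [fv_of_exp v hk, fv_of_exp v (h ▸ hk)]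

lemma bad_of_lam (hn : n + 1 = 2 * g) (hg : 2 ≤ g) {d : K} (hd : d ≠ 0) {x : Fin (n + 1) → K}
    (hx : Function.Injective (root x)) (v : HeightOneSpectrum (𝓞 K))
    (h2 : v.valuation K (2 : K) = 1) {i j : Fin (n + 2)} (hij : i ≠ j)
    (hpos : 0 < lam (fv v) (form K i j) x) : minExp g (pol d (root x)) v ≠ 0 := by
  obtain ⟨l, hl⟩ := sup_att (fv v) x
  refine bad_of_ne hn hg hd hx v h2 hij (Fin.succ_ne_zero l) ?_
  intro h
  rw [lam_form _ hij, h, hl] at hpos
  have e2 : root x l.succ - root x 0 = x l := by simp [root]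
  rw [e2, div_self ((fv v).pos (rep_ne hx l)).ne', Real.log_one] at hpos
  exact lt_irrefl _ hpos

lemma finite_two (K : Type) [Field K] [NumberField K] :
    {v : HeightOneSpectrum (𝓞 K) | v.valuation K (2 : K) ≠ 1}.Finite :=
  finite_val_ne_one two_ne_zero

/-- the global upper bound for the discriminant -/
theorem log_disc_le (K : Type) [Field K] [NumberField K] (hn : n + 1 = 2 * g) (hg : 2 ≤ g) :
    ∃ c₁ : ℝ, ∀ (x : Fin (n + 1) → K), Function.Injective (root x) → ∀ d : K, d ≠ 0 →
      Real.log (discNorm g (pol d (root x))) ≤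
        2 * (n + 2) * Real.log (badNorm g (pol d (root x))) +
          (n + 2) * (n + 1) * logHeight x + c₁ := by
  classical
  choose t ht using fun v : HeightOneSpectrum (𝓞 K) => exists_two_exp v
  refine ⟨∑ v ∈ (finite_two K).toFinset, 4 * g * t v * Real.log (Nv v) +
    (∑ w : InfinitePlace K, (w.mult : ℝ)) * ((n + 2) * (n + 1) * Real.log 2), ?_⟩
  intro x hx d hd
  set Bd := (finite_bad (hyp hn hd hx)).toFinset with hBd
  have h1 := log_discNorm hn hd hx
  have h2 := log_badNorm hn hd hx
  rw [← hBd] at h1 h2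
  have h3 : ∑ v ∈ Bd, (minExp g (pol d (root x)) v : ℝ) * Real.log (Nv v) ≤
      ∑ v ∈ Bd, ((4 * g * t v + 2 * (n + 2)) * Real.log (Nv v) + Lam (fv v) x) :=
    Finset.sum_le_sum fun v _ => minExp_le_Lam hn hg hd hx v (ht v)
  have h4 : ∑ v ∈ Bd, ((4 * g * t v + 2 * (n + 2)) * Real.log (Nv v) + Lam (fv v) x) =
      ∑ v ∈ Bd, 4 * g * t v * Real.log (Nv v) + 2 * (n + 2) * ∑ v ∈ Bd, Real.log (Nv v) +
        ∑ v ∈ Bd, Lam (fv v) x := by
    rw [Finset.mul_sum, ← Finset.sum_add_distrib, ← Finset.sum_add_distrib]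
    refine Finset.sum_congr rfl fun v _ => ?_
    ring
  have h5 := sum_Lam_le hx Bd
  have h6 : ∑ v ∈ Bd, 4 * g * t v * Real.log (Nv v) ≤
      ∑ v ∈ (finite_two K).toFinset, 4 * g * t v * Real.log (Nv v) := by
    have e1 : ∑ v ∈ Bd, 4 * g * t v * Real.log (Nv v) =
        ∑ v ∈ Bd.filter (fun v => v ∈ (finite_two K).toFinset), 4 * g * t v * Real.log (Nv v) := by
      rw [Finset.sum_filter]
      refine Finset.sum_congr rfl fun v _ => ?_
      split_ifs with h
      · rfl
      · have h7 : v.valuation K (2 : K) = 1 := by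
          by_contra hne
          exact h ((Set.Finite.mem_toFinset _).mpr hne)
        have h8 := ht v
        rw [h7, ← exp_zero, exp_inj] at h8
        have : t v = 0 := by omega
        rw [this]
        simp
    rw [e1]
    refine Finset.sum_le_sum_of_subset_of_nonneg (fun v hv => (Finset.mem_filter.mp hv).2)
      fun v _ _ => ?_
    have := (log_Nv_pos v).le
    positivity
  rw [h1, h2]
  linarith

end curve

end Pool.Agent.TH905.HS
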