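import Pool.Agent.TH905.HS.Glob

set_option autoImplicit false

/-!
Hyperelliptic curves with rational Weierstrass points: the first counting argument.
-/

namespace Pool.Agent.TH905.HS

open Finset NumberField IsDedekindDomain Pool.Agent.H691R3 Pool.Agent.W232.VA Height
  LinearAlgebra.Projectivization Pool.Agent.W318

section

variable {K : Type} [Field K] [NumberField K] {n g : ℕ}

lemma arr_lam_zero {x : Fin (n + 1) → K} (hx : Function.Injective (root x))
    {T : Finset (HeightOneSpectrum (𝓞 K))} (hT : ∀ v ∉ T, (∀ l, fv v (x l) = 1) ∧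
      ∀ i j, i ≠ j → fv v (root x i - root x j) = 1) :
    ∀ v ∉ T, ∀ i, lam (fv v) (arr K n i) x = 0 := by
  intro v hv i
  have hi := ((Fintype.equivFin (Idx n)).symm i).2
  unfold arr
  rw [lam_form _ hi]
  have h1 : (⨆ l, fv v (x l)) = 1 := by
    have : (fun l => fv v (x l)) = fun _ => (1 : ℝ) := funext fun l => (hT v hv).1 l
    rw [this, ciSup_const]
  rw [h1, (hT v hv).2 _ _ hi, div_one, Real.log_one]

lemma hW_eq' {x : Fin (n + 1) → K} {T : Finset (HeightOneSpectrum (𝓞 K))}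
    (hT : ∀ v ∉ T, ∀ i, lam (fv v) (arr K n i) x = 0) :
    hW (arr K n) x = ∑ w : InfinitePlace K, (w.mult : ℝ) * wt w.1 (arr K n) x +
      ∑ v ∈ T, wt (fv v) (arr K n) x := by
  unfold hW
  congr 1
  rw [finsum_eq_sum_of_support_subset (s := T)]
  intro v hv
  by_contra hne
  exact hv (wt_zero (hT v hne))

open Classical in
lemma N1_eq' (S : Finset (HeightOneSpectrum (𝓞 K))) {x : Fin (n + 1) → K}
    {T : Finset (HeightOneSpectrum (𝓞 K))}
    (hT : ∀ v ∉ T, ∀ i, lam (fv v) (arr K n i) x = 0) :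
    N1 S (arr K n) x = ∑ v ∈ T, if v ∉ S ∧ ∃ i, 0 < lam (fv v) (arr K n i) x then
      Real.log (Nv v) else 0 := by
  unfold Pool.Agent.W232.VA.N1
  rw [finsum_eq_sum_of_support_subset (s := T)]
  intro v hv
  by_contra hne
  rw [Function.mem_support] at hv
  apply hv
  rw [if_neg]
  rintro ⟨_, i, hi⟩
  rw [hT v hne i] at hi
  exact lt_irrefl _ hi

/-- the height is bounded in terms of `hW` and the truncated counting function -/
lemma height_le_hW (S : Finset (HeightOneSpectrum (𝓞 K))) {x : Fin (n + 1) → K}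
    (hx : Function.Injective (root x)) :
    (n + 2) * (n + 1) * logHeight x + n * N1 S (arr K n) x ≤ (n + 2) * hW (arr K n) x := by
  classical
  obtain ⟨T, hT⟩ := exists_supp' hx
  have hT' := arr_lam_zero hx hT
  rw [← height_id hx T hT, hW_eq' hT', N1_eq' S hT', mul_add, Finset.mul_sum, Finset.mul_sum,
    Finset.mul_sum]
  have h1 : ∑ w : InfinitePlace K, (w.mult : ℝ) * Lam w.1 x ≤
      ∑ w : InfinitePlace K, ((n : ℝ) + 2) * ((w.mult : ℝ) * wt w.1 (arr K n) x) := by
    refine Finset.sum_le_sum fun w _ => ?_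
    have := mul_le_mul_of_nonneg_left (star_le w.1 x) (Nat.cast_nonneg w.mult : (0 : ℝ) ≤ w.mult)
    linarith
  have h2 : ∑ v ∈ T, Lam (fv v) x + ∑ v ∈ T, (n : ℝ) *
      (if v ∉ S ∧ ∃ i, 0 < lam (fv v) (arr K n i) x then Real.log (Nv v) else 0) ≤
      ∑ v ∈ T, ((n : ℝ) + 2) * wt (fv v) (arr K n) x := by
    rw [← Finset.sum_add_distrib]
    refine Finset.sum_le_sum fun v _ => ?_
    split_ifs with h
    · obtain ⟨_, i, hi⟩ := h
      exact local_main v hx ⟨_, _, ((Fintype.equivFin (Idx n)).symm i).2, hi⟩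
    · rw [mul_zero, add_zero]
      exact star_le (fv v) x
  linarith

/-- the truncated counting function is bounded by the primes of bad reduction -/
lemma N1_le_bad (hn : n + 1 = 2 * g) (hg : 2 ≤ g) {d : K} (hd : d ≠ 0) {x : Fin (n + 1) → K}
    (hx : Function.Injective (root x)) (S : Finset (HeightOneSpectrum (𝓞 K)))
    (hS : ∀ v ∉ S, v.valuation K (2 : K) = 1) :
    N1 S (arr K n) x ≤ Real.log (badNorm g (pol d (root x))) := by
  classical
  obtain ⟨T, hT⟩ := exists_supp' hx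
  rw [N1_eq' S (arr_lam_zero hx hT), ← Finset.sum_filter]
  refine sum_le_badNorm hn hd hx _ fun v hv => ?_
  rw [Finset.mem_filter] at hv
  obtain ⟨_, hvS, i, hi⟩ := hv
  exact bad_of_lam hn hg hd hx v (hS v hvS) ((Fintype.equivFin (Idx n)).symm i).2 hi

/-- the set of configurations to be counted -/
def Viol (K : Type) [Field K] [NumberField K] (g n : ℕ) (κ c B : ℝ) :
    Set (ℙ K (Fin (n + 1) → K)) :=
  {P | Function.Injective (root P.rep) ∧ Real.log P.mulHeight / Module.finrank ℚ K ≤ Real.log B ∧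
    ∃ d : K, d ≠ 0 ∧ c * (badNorm g (pol d (root P.rep)) : ℝ) ^ κ <
      discNorm g (pol d (root P.rep))}

lemma mulHeight_rep (P : ℙ K (Fin (n + 1) → K)) : P.mulHeight = mulHeight P.rep := by
  conv_lhs => rw [← P.mk_rep]
  rw [Projectivization.mulHeight_mk]

lemma height_le {P : ℙ K (Fin (n + 1) → K)} {B : ℝ} (hB : 1 ≤ B)
    (h : Real.log P.mulHeight / Module.finrank ℚ K ≤ Real.log B) :
    P.mulHeight ≤ B ^ (Module.finrank ℚ K : ℝ) := by
  have hd : (0 : ℝ) < Module.finrank ℚ K := by exact_mod_cast Module.finrank_pos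
  have hP : 0 < P.mulHeight := by
    rw [mulHeight_rep]
    linarith [one_le_mulHeight P.rep]
  rw [div_le_iff₀ hd] at h
  rw [← Real.log_le_log_iff hP (Real.rpow_pos_of_pos (by linarith) _), Real.log_rpow (by linarith)]
  linarith

lemma viol_log {g : ℕ} {κ c : ℝ} (hc : 0 < c) {F : Polynomial K} (hM : 0 < badNorm g F)
    (h : c * (badNorm g F : ℝ) ^ κ < discNorm g F) :
    Real.log c + κ * Real.log (badNorm g F) < Real.log (discNorm g F) := by
  have hM' : (0 : ℝ) < badNorm g F := by exact_mod_cast hM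
  have h1 := Real.log_lt_log (mul_pos hc (Real.rpow_pos_of_pos hM' κ)) h
  rwa [Real.log_mul hc.ne' (Real.rpow_pos_of_pos hM' κ).ne', Real.log_rpow hM'] at h1

lemma badNorm_pos (hn : n + 1 = 2 * g) {d : K} (hd : d ≠ 0) {x : Fin (n + 1) → K}
    (hx : Function.Injective (root x)) : 0 < badNorm g (pol d (root x)) := by
  rw [badNorm_eq (finite_bad (hyp hn hd hx)).toFinset fun v => by simp]
  exact Finset.prod_pos fun v _ => one_le_absNorm v

/-- the violating configurations are exceptional for the braid arrangement -/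
theorem viol_sub (K : Type) [Field K] [NumberField K] (hn : n + 1 = 2 * g) (hg : 2 ≤ g)
    (κ κ₀ c : ℝ) (hκ : 4 * g + 4 < κ) (hc : 0 < c)
    (hκ₀ : κ₀ ≤ (n + 1) * (1 - 2 / (κ - 4 * g - 2))) :
    ∃ C' : ℝ, ∀ B : ℝ, 1 ≤ B → Viol K g n κ c B ⊆
      Exc (finite_two K).toFinset (arr K n) κ₀ C' (B ^ (Module.finrank ℚ K : ℝ)) := by
  classical
  obtain ⟨c₁, hc₁⟩ := log_disc_le K hn hg
  set s : ℝ := κ - 4 * g - 2 with hs
  have hs2 : 2 < s := by rw [hs]; linarith
  refine ⟨(c₁ - Real.log c) * (2 / (s * (n + 2))), fun B hB P hP => ?_⟩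
  obtain ⟨hx, hH, d, hd, hviol⟩ := hP
  refine ⟨fun i => ?_, height_le hB hH, ?_⟩
  · exact lin_ne hx ((Fintype.equivFin (Idx n)).symm i).2
  by_contra hcon
  push Not at hcon
  have h1 := viol_log hc (badNorm_pos hn hd hx) hviol
  have h2 := hc₁ P.rep hx d hd
  have h3 := height_le_hW (finite_two K).toFinset hx
  have h4 := N1_le_bad hn hg hd hx (finite_two K).toFinset (fun v hv => by
    by_contra hne
    exact hv ((Set.Finite.mem_toFinset _).mpr hne))
  rw [mulHeight_rep, ← logHeight_eq_log_mulHeight] at hcon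
  set H := logHeight P.rep with hHdef
  have hH0 : 0 ≤ H := by
    rw [hHdef, logHeight_eq_log_mulHeight]
    exact Real.log_nonneg (one_le_mulHeight _)
  set N := N1 (finite_two K).toFinset (arr K n) P.rep with hN
  set W := hW (arr K n) P.rep with hW'
  set M := Real.log (badNorm g (pol d (root P.rep))) with hMdef
  have hn' : (n : ℝ) + 1 = 2 * g := by exact_mod_cast hn
  have hn2 : (0 : ℝ) < n + 2 := by positivity
  have hn1 : (0 : ℝ) < n + 1 := by positivity
  -- (n+2)(n+1-κ₀) H ≤ 2 N - (n+2) C'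
  have h5 : ((n : ℝ) + 2) * (n + 1 - κ₀) * H ≤ 2 * N - (n + 2) *
      ((c₁ - Real.log c) * (2 / (s * (n + 2)))) := by nlinarith
  have h6 : ((n : ℝ) + 2) * ((c₁ - Real.log c) * (2 / (s * (n + 2)))) =
      (c₁ - Real.log c) * (2 / s) := by
    field_simp
  have h7 : ((n : ℝ) + 1) * (2 / s) ≤ n + 1 - κ₀ := by
    have : ((n : ℝ) + 1) * (1 - 2 / s) = n + 1 - (n + 1) * (2 / s) := by ring
    linarith
  have h8 : ((n : ℝ) + 2) * (((n : ℝ) + 1) * (2 / s)) * H ≤ (n + 2) * (n + 1 - κ₀) * H :=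
    mul_le_mul_of_nonneg_right (mul_le_mul_of_nonneg_left h7 hn2.le) hH0
  have hs0 : 0 < s := by linarith
  have h9 : ((n : ℝ) + 2) * (n + 1) * H ≤ s * M - (c₁ - Real.log c) := by
    have e1 : ((n : ℝ) + 2) * (((n : ℝ) + 1) * (2 / s)) * H ≤ 2 * M - (c₁ - Real.log c) * (2 / s) := by
      linarith
    have e2 := mul_le_mul_of_nonneg_left e1 (by positivity : 0 ≤ s / 2)
    have e3 : s / 2 * (((n : ℝ) + 2) * (((n : ℝ) + 1) * (2 / s)) * H) = (n + 2) * (n + 1) * H := by
      field_simp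
    have e4 : s / 2 * (2 * M - (c₁ - Real.log c) * (2 / s)) = s * M - (c₁ - Real.log c) := by
      field_simp
    rw [e3, e4] at e2
    exact e2
  have h10 : 2 * ((n : ℝ) + 2) * M + s * M = κ * M := by
    rw [hs]
    have : (n : ℝ) = 2 * g - 1 := by linarith
    rw [this]
    ring
  linarith

end

end Pool.Agent.TH905.HS
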