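import Mathlib

set_option autoImplicit false

/-!
A combinatorial inequality for finite ultrametric spaces.
-/

namespace Pool.Agent.TH905.HS

open Finset

/-- ultrametric weights -/
structure Ultra {q : ℕ} (w : Fin q → Fin q → ℕ) : Prop where
  symm : ∀ i j, w i j = w j i
  tri : ∀ i j k, i ≠ j → j ≠ k → i ≠ k → min (w i j) (w j k) ≤ w i k

lemma pairs_lt {n : ℕ} (N : Finset (Fin n)) :
    2 * ∑ k ∈ N, (N.filter fun k' => k' < k).card + N.card = N.card * N.card := by
  classical
  have h1 : ∑ k ∈ N, (N.filter fun k' => k' < k).card = ∑ k ∈ N, ∑ k' ∈ N, if k' < k then 1 else 0 :=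
    Finset.sum_congr rfl fun k _ => Finset.card_filter _ _
  have h2 : ∑ k ∈ N, ∑ k' ∈ N, (if k' < k then 1 else 0) =
      ∑ k ∈ N, ∑ k' ∈ N, (if k < k' then 1 else 0) := Finset.sum_comm
  have h3 : N.card = ∑ k ∈ N, ∑ k' ∈ N, (if k = k' then 1 else 0) := by
    rw [Finset.card_eq_sum_ones]
    refine Finset.sum_congr rfl fun k hk => ?_
    rw [Finset.sum_ite_eq, if_pos hk]
  have h4 : N.card * N.card = ∑ k ∈ N, ∑ k' ∈ N, 1 := by simp
  rw [two_mul, h4]
  conv_lhs => rw [h3]
  nth_rewrite 2 [h1]
  rw [h1, h2]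
  nth_rewrite 1 [← h2]
  rw [← Finset.sum_add_distrib, ← Finset.sum_add_distrib]
  refine Finset.sum_congr rfl fun k _ => ?_
  rw [← Finset.sum_add_distrib, ← Finset.sum_add_distrib]
  refine Finset.sum_congr rfl fun k' _ => ?_
  rcases lt_trichotomy k k' with h | h | h
  · simp [h, h.ne, h.le]
  · simp [h]
  · simp [h, h.ne', h.le]

variable {n : ℕ} {w : Fin (n + 2) → Fin (n + 2) → ℕ}

/-- the number of pairs at one level -/
lemma level (hw : Ultra w) (p : Fin (n + 1) → Fin (n + 2)) (hp : ∀ k, p k < k.succ)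
    (hmax : ∀ k j, j < k.succ → w k.succ j ≤ w k.succ (p k)) (t : ℕ) :
    ∑ i, ((univ.erase i).filter fun j => t < w i j).card ≤
      (univ.filter fun k => t < w (Fin.succ k) (p k)).card *
        ((univ.filter fun k => t < w (Fin.succ k) (p k)).card + 1) := by
  classical
  set N : Finset (Fin (n + 1)) := univ.filter fun k => t < w (Fin.succ k) (p k) with hN
  -- the elements below `i`
  have h1 : ∑ i, ((univ.erase i).filter fun j => t < w i j).card =
      2 * ∑ i, (univ.filter fun j => j < i ∧ t < w i j).card := by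
    have e1 : ∀ i : Fin (n + 2), ((univ.erase i).filter fun j => t < w i j).card =
        (univ.filter fun j => j < i ∧ t < w i j).card +
          (univ.filter fun j => i < j ∧ t < w i j).card := by
      intro i
      rw [← Finset.card_union_of_disjoint]
      · congr 1
        ext j
        simp only [mem_filter, mem_erase, mem_univ, and_true, true_and, mem_union]
        constructor
        · rintro ⟨h, h'⟩
          rcases lt_or_gt_of_ne h with h2 | h2
          · exact Or.inl ⟨h2, h'⟩
          · exact Or.inr ⟨h2, h'⟩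
        · rintro (⟨h, h'⟩ | ⟨h, h'⟩)
          · exact ⟨h.ne, h'⟩
          · exact ⟨h.ne', h'⟩
      · rw [Finset.disjoint_filter]
        rintro j _ ⟨h, _⟩ ⟨h', _⟩
        exact absurd h (lt_asymm h')
    rw [Finset.sum_congr rfl fun i _ => e1 i, Finset.sum_add_distrib, two_mul]
    congr 1
    simp only [Finset.card_filter]
    rw [Finset.sum_comm]
    refine Finset.sum_congr rfl fun i _ => Finset.sum_congr rfl fun j _ => ?_
    rw [hw.symm j i]
  -- bound for one vertex
  have h2 : ∀ k : Fin (n + 1), (univ.filter fun j => j < k.succ ∧ t < w k.succ j).card ≤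
      if k ∈ N then 1 + (N.filter fun k' => k' < k).card else 0 := by
    intro k
    set J : Finset (Fin (n + 2)) := univ.filter fun j => j < k.succ ∧ t < w k.succ j with hJ
    have hJm : ∀ j, j ∈ J ↔ j < k.succ ∧ t < w k.succ j := fun j => by simp [hJ]
    by_cases hne : J.Nonempty
    · have hk : k ∈ N := by
        obtain ⟨j, hj⟩ := hne
        rw [hJm] at hj
        rw [hN, mem_filter]
        exact ⟨mem_univ _, lt_of_lt_of_le hj.2 (hmax k j hj.1)⟩
      rw [if_pos hk]
      set j0 := J.min' hne with hj0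
      have hj0m : j0 ∈ J := J.min'_mem hne
      have h3 : J.card = 1 + (J.erase j0).card := by
        rw [Finset.card_erase_of_mem hj0m]
        have := Finset.card_pos.mpr hne
        omega
      rw [h3]
      apply Nat.add_le_add_left
      refine Finset.card_le_card_of_injOn (fun j => if h : j ≠ 0 then j.pred h else 0) ?_ ?_
      · intro j hj
        rw [Finset.mem_coe, mem_erase] at hj
        obtain ⟨hjne, hjJ⟩ := hj
        have hlt : j0 < j := lt_of_le_of_ne (J.min'_le j hjJ) (Ne.symm hjne)
        have hj0' : j ≠ 0 := fun h => by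
          rw [h] at hlt
          exact absurd hlt (Fin.not_lt_zero _)
        simp only [hj0', ne_eq, not_false_eq_true, dif_pos]
        obtain ⟨k', rfl⟩ := Fin.exists_succ_eq.mpr hj0'
        rw [Fin.pred_succ]
        rw [hJm] at hjJ hj0m
        have hk' : k' < k := Fin.succ_lt_succ_iff.mp hjJ.1
        rw [Finset.mem_coe, mem_filter, hN, mem_filter]
        refine ⟨⟨mem_univ _, ?_⟩, hk'⟩
        refine lt_of_lt_of_le ?_ (hmax k' j0 hlt)
        refine lt_of_lt_of_le ?_ (hw.tri k'.succ k.succ j0 hjJ.1.ne hj0m.1.ne' hlt.ne')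
        rw [hw.symm k'.succ k.succ]
        exact lt_min hjJ.2 hj0m.2
      · intro j hj j' hj' h
        rw [Finset.mem_coe, mem_erase] at hj hj'
        have hz : ∀ j ∈ J, j ≠ j0 → j ≠ 0 := by
          intro j hjJ hjne h
          have hlt : j0 < j := lt_of_le_of_ne (J.min'_le j hjJ) (Ne.symm hjne)
          rw [h] at hlt
          exact absurd hlt (Fin.not_lt_zero _)
        have e1 := hz j hj.2 hj.1
        have e2 := hz j' hj'.2 hj'.1
        simp only [e1, e2, ne_eq, not_false_eq_true, dif_pos] at h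
        exact Fin.pred_inj.mp h
    · rw [Finset.not_nonempty_iff_eq_empty] at hne
      rw [hne, Finset.card_empty]
      exact Nat.zero_le _
  have h3 : ∑ i, (univ.filter fun j => j < i ∧ t < w i j).card ≤
      N.card + ∑ k ∈ N, (N.filter fun k' => k' < k).card := by
    rw [Fin.sum_univ_succ]
    have e0 : (univ.filter fun j : Fin (n + 2) => j < 0 ∧ t < w 0 j).card = 0 := by
      rw [Finset.card_eq_zero, Finset.filter_eq_empty_iff]
      rintro j _ ⟨h, _⟩
      exact absurd h (Fin.not_lt_zero _)
    rw [e0, zero_add]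
    refine (Finset.sum_le_sum fun k _ => h2 k).trans ?_
    rw [← Finset.sum_filter, Finset.filter_mem_eq_inter, Finset.univ_inter,
      Finset.sum_add_distrib, Finset.card_eq_sum_ones]
  have h4 := pairs_lt N
  rw [h1]
  nlinarith

/-- the rank at one level is not full -/
lemma level_rank (hw : Ultra w) (p : Fin (n + 1) → Fin (n + 2)) (hp : ∀ k, p k < k.succ)
    (h0 : ∃ i j, i ≠ j ∧ w i j = 0) (t : ℕ) :
    (univ.filter fun k => t < w (Fin.succ k) (p k)).card ≤ n := by
  classical
  by_contra hcon
  push Not at hcon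
  have hfull : (univ.filter fun k => t < w (Fin.succ k) (p k)) = univ := by
    apply Finset.eq_univ_of_card
    apply le_antisymm (Finset.card_le_univ _)
    rw [Fintype.card_fin]
    omega
  have hall : ∀ k, t < w (Fin.succ k) (p k) := by
    intro k
    have : k ∈ (univ.filter fun k => t < w (Fin.succ k) (p k)) := by
      rw [hfull]; exact mem_univ _
    exact (mem_filter.mp this).2
  have hz : ∀ (N : ℕ) (i : Fin (n + 2)), i.val = N → i ≠ 0 → t < w i 0 := by
    intro N
    induction N using Nat.strong_induction_on with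
    | _ N ih =>
      intro i hi hi0
      obtain ⟨k, rfl⟩ := Fin.exists_succ_eq.mpr hi0
      by_cases hpk : p k = 0
      · have := hall k
        rwa [hpk] at this
      · have h1 := hp k
        have h2 := ih (p k).val (by rw [← hi]; exact h1) (p k) rfl hpk
        exact lt_of_lt_of_le (lt_min (hall k) h2) (hw.tri k.succ (p k) 0 h1.ne' hpk hi0)
  obtain ⟨i, j, hij, hwij⟩ := h0
  by_cases hi : i = 0
  · have := hz j.val j rfl (fun h => hij (by rw [hi, h]))
    rw [hw.symm, ← hi, hwij] at this
    omega
  · by_cases hj : j = 0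
    · have := hz i.val i rfl hi
      rw [← hj, hwij] at this
      omega
    · have h1 := hz i.val i rfl hi
      have h2 := hz j.val j rfl hj
      have h3 := hw.tri i 0 j hi (Ne.symm hj) hij
      rw [hwij, hw.symm 0 j] at h3
      have := lt_min h1 h2
      omega

lemma sum_levels (T a : ℕ) (ha : a ≤ T) : a = ∑ t ∈ range T, if t < a then 1 else 0 := by
  rw [← Finset.card_filter]
  have : (range T).filter (fun t => t < a) = range a := by
    ext t
    simp only [mem_filter, mem_range]
    omega
  rw [this, card_range]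

/-- the main combinatorial inequality -/
theorem ultra_main (hw : Ultra w) (p : Fin (n + 1) → Fin (n + 2)) (hp : ∀ k, p k < k.succ)
    (hmax : ∀ k j, j < k.succ → w k.succ j ≤ w k.succ (p k))
    (h0 : ∃ i j, i ≠ j ∧ w i j = 0) (h1 : ∃ i j, i ≠ j ∧ 0 < w i j) :
    ∑ i, ∑ j ∈ univ.erase i, w i j + (n + 2) ≤ 2 + (n + 2) * ∑ k, w (Fin.succ k) (p k) := by
  classical
  obtain ⟨T, hT⟩ : ∃ T : ℕ, ∀ i j, w i j ≤ T + 1 := by
    refine ⟨univ.sup fun q : Fin (n + 2) × Fin (n + 2) => w q.1 q.2, fun i j => ?_⟩
    have := Finset.le_sup (f := fun q : Fin (n + 2) × Fin (n + 2) => w q.1 q.2) (mem_univ (i, j))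
    simp only at this
    omega
  set r : ℕ → ℕ := fun t => (univ.filter fun k => t < w (Fin.succ k) (p k)).card with hr
  have hL : ∑ i, ∑ j ∈ univ.erase i, w i j =
      ∑ t ∈ range (T + 1), ∑ i, ((univ.erase i).filter fun j => t < w i j).card := by
    rw [Finset.sum_comm]
    refine Finset.sum_congr rfl fun i _ => ?_
    simp only [Finset.card_filter]
    rw [Finset.sum_comm]
    exact Finset.sum_congr rfl fun j _ => sum_levels _ _ (hT i j)
  have hR : ∑ k, w (Fin.succ k) (p k) = ∑ t ∈ range (T + 1), r t := by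
    simp only [hr, Finset.card_filter]
    rw [Finset.sum_comm]
    exact Finset.sum_congr rfl fun k _ => sum_levels _ _ (hT _ _)
  have hle : ∀ t, ∑ i, ((univ.erase i).filter fun j => t < w i j).card ≤ r t * (r t + 1) :=
    fun t => level hw p hp hmax t
  have hn : ∀ t, r t ≤ n := fun t => level_rank hw p hp h0 t
  have hr0 : 1 ≤ r 0 := by
    by_contra hcon
    push Not at hcon
    have e1 : r 0 = 0 := by omega
    have e2 := hle 0
    rw [e1, zero_mul, Nat.le_zero, Finset.sum_eq_zero_iff] at e2
    obtain ⟨i, j, hij, hpos⟩ := h1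
    have e3 := e2 i (mem_univ _)
    rw [Finset.card_eq_zero, Finset.filter_eq_empty_iff] at e3
    exact e3 (mem_erase.mpr ⟨hij.symm, mem_univ j⟩) hpos
  rw [hL, hR]
  have e4 : ∑ t ∈ range (T + 1), ∑ i, ((univ.erase i).filter fun j => t < w i j).card ≤
      ∑ t ∈ range (T + 1), r t * (r t + 1) := Finset.sum_le_sum fun t _ => hle t
  have e5 : ∑ t ∈ range (T + 1), r t * (r t + 1) + (n + 2) ≤
      2 + (n + 2) * ∑ t ∈ range (T + 1), r t := by
    rw [Finset.sum_range_succ', Finset.sum_range_succ' (fun t => r t)]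
    have e6 : ∑ t ∈ range T, r (t + 1) * (r (t + 1) + 1) ≤ (n + 2) * ∑ t ∈ range T, r (t + 1) := by
      rw [Finset.mul_sum]
      refine Finset.sum_le_sum fun t _ => ?_
      have := hn (t + 1)
      nlinarith
    have e7 : r 0 * (r 0 + 1) + (n + 2) ≤ 2 + (n + 2) * r 0 := by
      have := hn 0
      obtain ⟨s, hs⟩ : ∃ s, r 0 = s + 1 := ⟨r 0 - 1, by omega⟩
      rw [hs] at this ⊢
      nlinarith
    nlinarith
  omega

end Pool.Agent.TH905.HS
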