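import Pool.Agent.TH905.HS.Fin1
import Pool.Agent.Results.MP_9ec3f0_nt.HyperplaneExceptions

set_option autoImplicit false

/-!
Hyperelliptic curves with rational Weierstrass points: the second counting argument.
-/

namespace Pool.Agent.TH905.HS

open Finset NumberField IsDedekindDomain Pool.Agent.H691R3 Height
  LinearAlgebra.Projectivization Pool.Agent.W318
open Pool.Agent.Results.MP_9ec3f0_nt.HyperplaneExceptions (expo Exc)

section

variable {K : Type} [Field K] [NumberField K] {n g : ℕ}

/-- the differences of cyclically consecutive roots -/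
def cyc (K : Type) [Field K] (n : ℕ) (i : Fin (n + 2)) : Fin (n + 1) → K := form K (i + 1) i

lemma succ_ne' (i : Fin (n + 2)) : i + 1 ≠ i := by
  intro h
  have : (1 : Fin (n + 2)) = 0 := by
    have h2 : i + 1 = i + 0 := by rw [h, add_zero]
    exact add_left_cancel h2
  exact one_ne_zero this

lemma cyc_ne (i : Fin (n + 2)) : cyc K n i ≠ 0 := form_ne (succ_ne' i)

lemma lin_cyc (i : Fin (n + 2)) (x : Fin (n + 1) → K) :
    Pool.Agent.H57R3.VJ.lin (cyc K n i) x = root x (i + 1) - root x i :=
  lin_form (i + 1) i x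

open Fin.NatCast Fin.CommRing in
lemma cyc_indep (I : Finset (Fin (n + 2))) (hI : I.card = n + 1) :
    LinearIndependent K (fun i : I => cyc K n i) := by
  classical
  -- the missing index
  obtain ⟨i₀, hi₀⟩ : ∃ i₀, i₀ ∉ I := by
    by_contra hcon
    push Not at hcon
    have : I = univ := Finset.eq_univ_of_forall hcon
    rw [this, Finset.card_univ, Fintype.card_fin] at hI
    omega
  have hmem : ∀ i, i ≠ i₀ → i ∈ I := by
    intro i hi
    by_contra hcon
    have h1 : I ⊆ (univ.erase i₀).erase i := by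
      intro j hj
      rw [mem_erase, mem_erase]
      exact ⟨fun h => hcon (h ▸ hj), fun h => hi₀ (h ▸ hj), mem_univ _⟩
    have h2 := Finset.card_le_card h1
    rw [Finset.card_erase_of_mem (mem_erase.mpr ⟨hi, mem_univ _⟩),
      Finset.card_erase_of_mem (mem_univ _), Finset.card_univ, Fintype.card_fin, hI] at h2
    omega
  set ψ := (I.equivFinOfCardEq hI).symm with hψ
  rw [← linearIndependent_equiv ψ]
  refine tree_LI (fun k => ⟨((ψ k : Fin (n + 2)) + 1, (ψ k : Fin (n + 2))), succ_ne' _⟩) ?_
  intro e h0 he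
  have h1 : ∀ i, i ≠ i₀ → e (i + 1) = e i := by
    intro i hi
    have := he (ψ.symm ⟨i, hmem i hi⟩)
    simpa using this
  have h2 : ∀ k : ℕ, k ≤ n + 1 → e (i₀ + 1 + (k : Fin (n + 2))) = e (i₀ + 1) := by
    intro k
    induction k with
    | zero => intro _; simp
    | succ k ih =>
      intro hk
      have h3 : i₀ + 1 + (k : Fin (n + 2)) ≠ i₀ := by
        intro h
        have h4 : (1 : Fin (n + 2)) + (k : Fin (n + 2)) = 0 := by
          have h5 : i₀ + (1 + (k : Fin (n + 2))) = i₀ + 0 := by rw [← add_assoc, h, add_zero]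
          exact add_left_cancel h5
        have h6 : ((k + 1 : ℕ) : Fin (n + 2)) = 0 := by
          push_cast
          exact (add_comm _ _).trans h4
        rw [Fin.natCast_eq_zero] at h6
        have := Nat.le_of_dvd (by omega) h6
        omega
      have h7 := h1 _ h3
      rw [ih (by omega)] at h7
      rw [← h7]
      congr 1
      push_cast
      ring
  have h3 : ∀ i, e i = e (i₀ + 1) := by
    intro i
    have h4 := h2 (i - (i₀ + 1)).val (by have := (i - (i₀ + 1)).isLt; omega)
    rw [Fin.cast_val_eq_self] at h4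
    rw [← h4]
    congr 1
    ring
  intro i
  rw [h3 i, ← h3 0, h0]

/-- the violating configurations are exceptional for the cycle -/
theorem viol_sub2 (K : Type) [Field K] [NumberField K] (hn : n + 1 = 2 * g) (hg : 2 ≤ g)
    (κ c : ℝ) (hκ : 4 * g + 4 < κ) (hc : 0 < c) :
    ∃ (S : Finset (FinitePlace K)) (C' : ℝ), ∀ B : ℝ, 1 ≤ B → Viol K g n κ c B ⊆
      Exc S (cyc K n) ((n + 1) * (n + 2) / (κ - 4 * g - 2)) C'
        (B ^ (Module.finrank ℚ K : ℝ)) := by
  classical
  obtain ⟨c₁, hc₁⟩ := log_disc_le K hn hg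
  set s : ℝ := κ - 4 * g - 2 with hs
  have hs2 : 2 < s := by rw [hs]; linarith
  obtain ⟨S0, hS, hs1, hs2'⟩ := Pool.Agent.H57R3.VJ.bad_exists (K := K) (a := cyc K n)
    (fun I hI => cyc_indep I hI) cyc_ne ((finite_two K).toFinset.image FinitePlace.mk)
  refine ⟨S0, (c₁ - Real.log c) / s, fun B hB P hP => ?_⟩
  obtain ⟨hx, hH, d, hd, hviol⟩ := hP
  have hl : ∀ i, Pool.Agent.H57R3.VJ.lin (cyc K n i) P.rep ≠ 0 := by
    intro i
    rw [lin_cyc, sub_ne_zero]
    exact hx.ne (succ_ne' i)
  refine ⟨hl, height_le hB hH, ?_⟩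
  by_contra hcon
  push Not at hcon
  have h1 := viol_log hc (badNorm_pos hn hd hx) hviol
  have h2 := hc₁ P.rep hx d hd
  have h4 := Pool.Agent.TH905.VF.N1_le (K := K) (a := cyc K n) (by omega) cyc_ne S0 hs1 hs2'
    P.rep (rep_ne' hx) hl (Real.log (badNorm g (pol d (root P.rep)))) (by
      intro R hR
      refine sum_le_badNorm hn hd hx R fun v hv => ?_
      obtain ⟨hvS, i, j, hij⟩ := hR v hv
      rw [lin_cyc, lin_cyc] at hij
      refine bad_of_ne hn hg hd hx v ?_ (succ_ne' i) (succ_ne' j) hij.ne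
      by_contra hne
      apply hvS
      apply hS
      exact Finset.mem_image_of_mem _ ((Set.Finite.mem_toFinset _).mpr hne))
  rw [mulHeight_rep, ← logHeight_eq_log_mulHeight] at hcon
  set H := logHeight P.rep with hHdef
  set M := Real.log (badNorm g (pol d (root P.rep))) with hMdef
  have hn' : (n : ℝ) + 1 = 2 * g := by exact_mod_cast hn
  have hs0 : 0 < s := by linarith
  have h5 : ((n : ℝ) + 1) * (n + 2) / s * H + (c₁ - Real.log c) / s < M := lt_of_lt_of_le hcon h4
  have h9 : ((n : ℝ) + 2) * (n + 1) * H + (c₁ - Real.log c) < s * M := by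
    have e2 := mul_lt_mul_of_pos_left h5 hs0
    have e3 : s * (((n : ℝ) + 1) * (n + 2) / s * H + (c₁ - Real.log c) / s) =
        (n + 2) * (n + 1) * H + (c₁ - Real.log c) := by
      field_simp
    rwa [e3] at e2
  have h10 : 2 * ((n : ℝ) + 2) * M + s * M = κ * M := by
    rw [hs]
    have : (n : ℝ) = 2 * g - 1 := by linarith
    rw [this]
    ring
  linarith

end

end Pool.Agent.TH905.HS
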