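import Pool.Agent.TH905.HS.Fin2

set_option autoImplicit false

/-!
Hyperelliptic curves with rational Weierstrass points: the exponent of the exceptional set.
-/

namespace Pool.Agent.TH905.HS

open Finset NumberField IsDedekindDomain Pool.Agent.H691R3 Height
  LinearAlgebra.Projectivization Pool.Agent.W318

/-- the exponent of the exceptional set -/
noncomputable def expoS (g : ℕ) (κ : ℝ) : ℝ :=
  min (max (2 * g - 1 / 2) (4 * g / (κ - 4 * g - 2)))
    (min (2 * g * (2 * g + 1) / (κ - 4 * g - 2)) (1 + 2 * g * (2 * g - 1) / (κ - 4 * g - 2)))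

lemma expoS_lt {g : ℕ} (hg : 2 ≤ g) {κ : ℝ} (hκ : 4 * g + 4 < κ) : expoS g κ < 2 * g := by
  have hg' : (2 : ℝ) ≤ g := by exact_mod_cast hg
  refine lt_of_le_of_lt (min_le_left _ _) (max_lt (by linarith) ?_)
  have hs : 2 < κ - 4 * g - 2 := by linarith
  rw [div_lt_iff₀ (by linarith)]
  nlinarith

lemma count_of_sub {α : Type*} {n D : ℝ} (hD : 0 < D) (V : ℝ → Set α) (W : ℝ → Set α)
    (hsub : ∀ B, 1 ≤ B → V B ⊆ W (B ^ D)) {δ : ℝ}
    (h : ∃ M : ℝ, ∀ B : ℝ, 1 ≤ B → (W B).Finite ∧ ((W B).ncard : ℝ) ≤ M * B ^ (n + δ / D)) :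
    ∃ M : ℝ, ∀ B : ℝ, 1 ≤ B → (V B).Finite ∧ ((V B).ncard : ℝ) ≤ M * B ^ (D * n + δ) := by
  obtain ⟨M, hM⟩ := h
  refine ⟨M, fun B hB => ?_⟩
  have hB0 : 0 < B := by linarith
  obtain ⟨h1, h2⟩ := hM (B ^ D) (Real.one_le_rpow hB hD.le)
  refine ⟨h1.subset (hsub B hB), ?_⟩
  have h3 : ((V B).ncard : ℝ) ≤ ((W (B ^ D)).ncard : ℝ) := by
    exact_mod_cast Set.ncard_le_ncard (hsub B hB) h1
  rw [← Real.rpow_mul hB0.le] at h2
  have h4 : D * (n + δ / D) = D * n + δ := by
    field_simp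
  rw [h4] at h2
  exact h3.trans h2

theorem viol_count (K : Type) [Field K] [NumberField K] {g n : ℕ} (hg : 2 ≤ g)
    (hn : n + 1 = 2 * g) (κ : ℝ) (hκ : 4 * g + 4 < κ) (c δ : ℝ) (hc : 0 < c) (hδ : 0 < δ) :
    ∃ M : ℝ, ∀ B : ℝ, 1 ≤ B → (Viol K g n κ c B).Finite ∧
      ((Viol K g n κ c B).ncard : ℝ) ≤ M * B ^ (Module.finrank ℚ K * expoS g κ + δ) := by
  have hD : (0 : ℝ) < Module.finrank ℚ K := by exact_mod_cast Module.finrank_pos
  have hg' : (2 : ℝ) ≤ g := by exact_mod_cast hg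
  have hn' : (n : ℝ) + 1 = 2 * g := by exact_mod_cast hn
  have hs : 2 < κ - 4 * g - 2 := by linarith
  have hs0 : 0 < κ - 4 * g - 2 := by linarith
  unfold expoS
  rcases min_choice (max (2 * (g : ℝ) - 1 / 2) (4 * g / (κ - 4 * g - 2)))
    (min (2 * g * (2 * g + 1) / (κ - 4 * g - 2)) (1 + 2 * g * (2 * g - 1) / (κ - 4 * g - 2)))
    with hmin | hmin
  · rw [hmin]
    set κ₀ : ℝ := min (1 / 2) ((n + 1) * (1 - 2 / (κ - 4 * g - 2))) with hκ₀
    obtain ⟨C', hC'⟩ := viol_sub K hn hg κ κ₀ c hκ hc (min_le_right _ _)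
    have h0 : 0 ≤ κ₀ := by
      refine le_min (by norm_num) (mul_nonneg (by positivity) ?_)
      rw [sub_nonneg, div_le_one hs0]
      exact hs.le
    refine count_of_sub hD (Viol K g n κ c) _ hC' ?_
    have h := Pool.Agent.W232.VA.main2 (arr K n) arr_ne (finite_two K).toFinset κ₀ C'
      (δ / Module.finrank ℚ K) h0 (min_le_left _ _) (by positivity)
    have he : (n : ℝ) + 1 - κ₀ = max (2 * (g : ℝ) - 1 / 2) (4 * g / (κ - 4 * g - 2)) := by
      rw [hκ₀, hn']
      rcases le_total (1 / 2 : ℝ) (2 * g * (1 - 2 / (κ - 4 * g - 2))) with h1 | h1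
      · rw [min_eq_left h1, max_eq_left]
        have : 4 * (g : ℝ) / (κ - 4 * g - 2) = 2 * g - 2 * g * (1 - 2 / (κ - 4 * g - 2)) := by
          field_simp
          ring
        rw [this]
        linarith
      · rw [min_eq_right h1, max_eq_right]
        · field_simp
          ring
        · have : 4 * (g : ℝ) / (κ - 4 * g - 2) = 2 * g - 2 * g * (1 - 2 / (κ - 4 * g - 2)) := by
            field_simp
            ring
          rw [this]
          linarith
    rw [he] at h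
    exact h
  · rw [hmin]
    obtain ⟨S, C', hC'⟩ := viol_sub2 K hn hg κ c hκ hc
    refine count_of_sub hD (Viol K g n κ c) _ hC' ?_
    have h := (Pool.Agent.Results.MP_9ec3f0_nt.HyperplaneExceptions.result K n (n + 2) (by omega)
      (by omega) (cyc K n) (fun I hI => cyc_indep I hI) S
      ((n + 1) * (n + 2) / (κ - 4 * g - 2)) C' (δ / Module.finrank ℚ K)
      (by positivity) (by positivity)).2
    have he : Pool.Agent.Results.MP_9ec3f0_nt.HyperplaneExceptions.expo n (n + 2)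
        ((n + 1) * (n + 2) / (κ - 4 * g - 2)) = min (2 * g * (2 * g + 1) / (κ - 4 * g - 2))
          (1 + 2 * g * (2 * g - 1) / (κ - 4 * g - 2)) := by
      unfold Pool.Agent.Results.MP_9ec3f0_nt.HyperplaneExceptions.expo
      have e1 : (n + 2 - n).choose (n + 1) = 0 := Nat.choose_eq_zero_of_lt (by omega)
      have e2 : (n : ℝ) = 2 * g - 1 := by linarith
      rw [e1]
      congr 1
      · push_cast
        rw [e2]
        ring
      · push_cast
        rw [e2]
        have e3 : (2 * (g : ℝ) - 1 + 2) ≠ 0 := by linarith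
        have e4 : (2 * (g : ℝ) - 1 + 2 - 1) ≠ 0 := by linarith
        field_simp
        ring
    rw [he] at h
    exact h

end Pool.Agent.TH905.HS
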