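import Pool.Agent.TH905.HS.Loc2

set_option autoImplicit false

/-!
Hyperelliptic curves with rational Weierstrass points: a lower bound for the minimal discriminant
at odd places where only one pair of roots is congruent and the twist is ramified.
-/

namespace Pool.Agent.TH905.HS

open Polynomial Finset NumberField IsDedekindDomain WithZero Pool.Agent.W318

lemma int_parity {g N : ℕ} (hg : 2 ≤ g) (hN : N = 2 * g + 2) (a : Fin N → ℤ) (z e : ℤ)
    (i₀ j₀ : Fin N)
    (h : ∀ i j, i ≠ j → ¬(i = i₀ ∧ j = j₀) → ¬(i = j₀ ∧ j = i₀) → z ≤ a i + a j)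
    (hint : e + ∑ i, a i ≤ 0) (hodd : Odd e) : e + (g + 1) * z ≤ -1 := by
  classical
  by_contra hcon
  push Not at hcon
  have hcon' : 0 ≤ e + (g + 1) * z := by linarith
  have hN' : (N : ℤ) = 2 * g + 2 := by exact_mod_cast hN
  set y : Fin N → ℤ := fun i => 2 * a i - z with hy
  have hysum : ∑ i, y i = 2 * ∑ i, a i - (2 * g + 2) * z := by
    simp only [hy]
    rw [Finset.sum_sub_distrib, ← Finset.mul_sum, Finset.sum_const, Finset.card_univ,
      Fintype.card_fin, nsmul_eq_mul, hN']
  have hys : ∑ i, y i ≤ 0 := by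
    rw [hysum]
    nlinarith
  have hpair : ∀ i j, i ≠ j → ¬(i = i₀ ∧ j = j₀) → ¬(i = j₀ ∧ j = i₀) → 0 ≤ y i + y j := by
    intro i j h1 h2 h3
    have := h i j h1 h2 h3
    simp only [hy]
    linarith
  set T : Finset (Fin N) := {i₀, j₀} with hT
  have hTm : ∀ i, i ∉ T ↔ i ≠ i₀ ∧ i ≠ j₀ := by
    intro i
    rw [hT, mem_insert, mem_singleton, not_or]
  have hTc : T.card ≤ 2 := by
    rw [hT]
    exact Finset.card_le_two
  have hM : max (-y i₀) (-y j₀) ≤ 0 := by
    by_contra hM
    push Not at hM
    set M := max (-y i₀) (-y j₀) with hMdef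
    have h1 : ∀ i, (if i ∈ T then -M else M) ≤ y i := by
      intro i
      by_cases hi : i ∈ T
      · rw [if_pos hi]
        rw [hT, mem_insert, mem_singleton] at hi
        rcases hi with rfl | rfl
        · have := le_max_left (-y i) (-y j₀)
          omega
        · have := le_max_right (-y i₀) (-y i)
          omega
      · rw [if_neg hi]
        rw [hTm] at hi
        have e1 := hpair i i₀ hi.1 (fun h => hi.1 h.1) (fun h => hi.2 h.1)
        have e2 := hpair i j₀ hi.2 (fun h => hi.1 h.1) (fun h => hi.2 h.1)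
        rw [hMdef]
        exact max_le (by linarith) (by linarith)
    have h2 : ∑ i, (if i ∈ T then -M else M) ≤ ∑ i, y i := Finset.sum_le_sum fun i _ => h1 i
    have h3 : ∑ i, (if i ∈ T then -M else M) = N * M - 2 * T.card * M := by
      have : ∀ i, (if i ∈ T then -M else M) = M - if i ∈ T then 2 * M else 0 := by
        intro i
        split_ifs <;> ring
      rw [Finset.sum_congr rfl fun i _ => this i, Finset.sum_sub_distrib, Finset.sum_const,
        Finset.card_univ, Fintype.card_fin, nsmul_eq_mul, Finset.sum_ite_mem, Finset.univ_inter,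
        Finset.sum_const, nsmul_eq_mul]
      ring
    have h4 : (T.card : ℤ) ≤ 2 := by exact_mod_cast hTc
    have h5 : (6 : ℤ) ≤ N := by
      rw [hN']
      have : (2 : ℤ) ≤ g := by exact_mod_cast hg
      linarith
    nlinarith
  have hi₀ : 0 ≤ y i₀ := by
    have := le_max_left (-y i₀) (-y j₀)
    omega
  have hj₀ : 0 ≤ y j₀ := by
    have := le_max_right (-y i₀) (-y j₀)
    omega
  have hall : ∀ i, 0 ≤ y i := by
    intro i
    by_cases hi : i ∈ T
    · rw [hT, mem_insert, mem_singleton] at hi
      rcases hi with rfl | rfl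
      · exact hi₀
      · exact hj₀
    · rw [hTm] at hi
      have e1 := hpair i i₀ hi.1 (fun h => hi.1 h.1) (fun h => hi.2 h.1)
      by_contra hneg
      push Not at hneg
      have h1 : ∀ j ∈ univ.erase i, -y i ≤ y j := by
        intro j hj
        have hij := (Finset.ne_of_mem_erase hj).symm
        have := hpair i j hij (fun h => hi.1 h.1) (fun h => hi.2 h.1)
        linarith
      have h2 : ∑ _j ∈ univ.erase i, (-y i) ≤ ∑ j ∈ univ.erase i, y j := Finset.sum_le_sum h1
      rw [Finset.sum_const, Finset.card_erase_of_mem (mem_univ _), Finset.card_univ,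
        Fintype.card_fin, nsmul_eq_mul] at h2
      have h3 := Finset.add_sum_erase univ y (mem_univ i)
      have h4 : ((N - 1 : ℕ) : ℤ) = 2 * g + 1 := by omega
      rw [h4] at h2
      have : (2 : ℤ) ≤ g := by exact_mod_cast hg
      nlinarith
  have hzero : ∀ i, y i = 0 := by
    have := (Finset.sum_eq_zero_iff_of_nonneg (fun i _ => hall i)).mp
      (le_antisymm hys (Finset.sum_nonneg fun i _ => hall i))
    exact fun i => this i (mem_univ i)
  have hz := hzero i₀
  simp only [hy] at hz
  have hsum0 : ∑ i, y i = 0 := Finset.sum_eq_zero fun i _ => hzero i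
  rw [hysum] at hsum0
  obtain ⟨q, hq⟩ := hodd
  have h1 : e = -((g + 1) * z) := by nlinarith
  have h2 : z = 2 * a i₀ := by linarith
  rw [h2] at h1
  have h3 : (2 : ℤ) * (q + (g + 1) * a i₀) = -1 := by linarith
  omega

section

variable {K : Type} [Field K] [NumberField K]

lemma absW_pow (v : HeightOneSpectrum (𝓞 K)) {x : K} (hx : x ≠ 0) :
    ∃ k : ℤ, absW v x = 2 ^ k := by
  obtain ⟨k, hk⟩ := exists_exp v hx
  exact ⟨k, absW_exp v hk⟩

/-- a lower bound for the exponent of the minimal discriminant -/
theorem minExp_low {g m : ℕ} (hg : 2 ≤ g) (hm : m = 2 * g + 1) {d : K} (hd : d ≠ 0)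
    {e : Fin m → K} (he : Function.Injective e) (v : HeightOneSpectrum (𝓞 K))
    (h2 : v.valuation K (2 : K) = 1) {τ : K} (hτ : τ ≠ 0) (i₀ j₀ : Fin m)
    (hsim : ∀ i j, i ≠ j → ¬(i = i₀ ∧ j = j₀) → ¬(i = j₀ ∧ j = i₀) →
      absW v (e i - e j) = absW v τ) {k : ℤ}
    (hk : v.valuation K (d * τ ^ m) = exp k) (hodd : Odd k) :
    2 * m * Real.log 2 +
      ∑ i, ∑ j ∈ univ.erase i, (Real.log (absW v τ) - Real.log (absW v (e i - e j))) ≤
        (minExp g (pol d e) v : ℝ) * Real.log 2 := by
  classical
  have hF := pol_isHyp hm hd he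
  obtain ⟨f, f₂, hM, hn⟩ := exists_min_model hF v
  obtain ⟨φ⟩ := hM.iso
  have hbr := bridge hg hF.1 hF.2 hM.upper φ
  set G := 4 * f + f₂ ^ 2 with hG
  have hgood : GoodForm (g + 1) G := hbr.good (by omega) hF.good
  have hint := int_comb v hM.int hM.int₂
  have h4 : (1 / 4 : K) ≠ 0 := by norm_num
  have hv4 : v.valuation K (1 / 4 : K) = 1 := by
    have : (1 / 4 : K) = (2 * 2)⁻¹ := by norm_num
    rw [this, map_inv₀, map_mul, h2, one_mul, inv_one]
  have hdisc : v.valuation K (discN (g + 1 + (g + 1)) G) =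
      exp (-((minExp g (pol d e) v : ℕ) : ℤ)) := by
    rw [modelDisc_eq, four_mul_form, discN_C_mul (by omega) h4 hgood.2, map_mul, map_mul,
      map_pow, map_pow, h2, hv4, one_pow, one_pow, one_mul, one_mul] at hn
    exact hn
  have hnn : g + 1 + (g + 1) = m + 1 := by omega
  obtain ⟨a, b, c, d', l, hdet, hl, hGe⟩ := hbr
  rw [hnn] at hGe hdisc
  have hcd : c ≠ 0 ∨ d' ≠ 0 := by
    by_contra hcon
    push Not at hcon
    exact hdet (by rw [hcon.1, hcon.2]; ring)
  rw [pol_eq, act_prod (m + 1) hcd, ← mul_assoc, ← C_mul] at hGe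
  set α' : Fin (m + 1) → K := fun i => al K m i * a + be e i * c with hα'
  set β' : Fin (m + 1) → K := fun i => al K m i * b + be e i * d' with hβ'
  have hdet' : ∀ i j, α' i * β' j - α' j * β' i =
      (a * d' - b * c) * (al K m i * be e j - al K m j * be e i) := by
    intro i j
    simp only [hα', hβ']
    ring
  have hne' : ∀ i j, i ≠ j → α' i * β' j - α' j * β' i ≠ 0 := by
    intro i j hij
    rw [hdet']
    exact mul_ne_zero hdet (det_ne he i j hij)
  have hu : l ^ 2 * d ≠ 0 := mul_ne_zero (pow_ne_zero 2 hl) hd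
  have hna := absW_na v
  have hA1 : absW v (l ^ 2 * d) * ∏ i, max (absW v (α' i)) (absW v (β' i)) ≤ 1 := by
    have e1 : G.gaussNorm (absW v) 1 ≤ 1 :=
      (gaussNorm_le_one_iff _).mpr fun i => (absW_le_one_iff v _).mpr (hint i)
    rw [hGe, gaussNorm_prod_lin hna] at e1
    exact e1
  have hlog2 : 0 < Real.log 2 := Real.log_pos one_lt_two
  -- integer exponents
  have hpe : ∀ i, ∃ p : ℤ, max (absW v (α' i)) (absW v (β' i)) = 2 ^ p := by
    intro i
    have hnz : α' i ≠ 0 ∨ β' i ≠ 0 := by
      by_contra hcon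
      push Not at hcon
      obtain ⟨j, hj⟩ : ∃ j : Fin (m + 1), i ≠ j := by
        have : Nontrivial (Fin (m + 1)) := Fin.nontrivial_iff_two_le.mpr (by omega)
        obtain ⟨j, hj⟩ := exists_ne i
        exact ⟨j, hj.symm⟩
      exact hne' i j hj (by rw [hcon.1, hcon.2]; ring)
    rcases le_total (absW v (α' i)) (absW v (β' i)) with h | h
    · rw [max_eq_right h]
      have : β' i ≠ 0 := by
        intro h0
        rw [h0, map_zero] at h
        have h5 : α' i = 0 := (absW v).eq_zero.mp (le_antisymm h ((absW v).nonneg _))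
        rcases hnz with h6 | h6
        · exact h6 h5
        · exact h6 h0
      exact absW_pow v this
    · rw [max_eq_left h]
      have : α' i ≠ 0 := by
        intro h0
        rw [h0, map_zero] at h
        have h5 : β' i = 0 := (absW v).eq_zero.mp (le_antisymm h ((absW v).nonneg _))
        rcases hnz with h6 | h6
        · exact h6 h0
        · exact h6 h5
      exact absW_pow v this
  choose p hp using hpe
  obtain ⟨δ, hδ⟩ := exists_exp v hdet
  obtain ⟨kτ, hkτ⟩ := exists_exp v hτ
  obtain ⟨ld, hld⟩ := exists_exp v hl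
  obtain ⟨kd, hkd⟩ := exists_exp v hd
  have hkk : k = kd + m * kτ := by
    rw [map_mul, map_pow, hkd, hkτ, ← exp_nsmul, ← exp_add, exp_inj] at hk
    rw [← hk]
    simp
  have hpos2 : (0 : ℝ) < 2 := by norm_num
  -- pair inequalities
  have hpair : ∀ i j, absW v (α' i * β' j - α' j * β' i) ≤ (2 : ℝ) ^ (p i + p j) := by
    intro i j
    rw [zpow_add₀ (by norm_num), ← hp i, ← hp j]
    have hμ0 : ∀ i, 0 ≤ max (absW v (α' i)) (absW v (β' i)) :=
      fun i => ((absW v).nonneg _).trans (le_max_left _ _)
    refine (na_sub_le hna _ _).trans (max_le ?_ ?_)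
    · rw [map_mul]
      exact mul_le_mul (le_max_left _ _) (le_max_right _ _) ((absW v).nonneg _) (hμ0 i)
    · rw [map_mul, mul_comm (max (absW v (α' i)) (absW v (β' i)))]
      exact mul_le_mul (le_max_left _ _) (le_max_right _ _) ((absW v).nonneg _) (hμ0 j)
  set aa : Fin (m + 1) → ℤ := Fin.cons (p 0) (fun i => p i.succ - kτ) with haa
  have hpar := int_parity hg (by omega : m + 1 = 2 * g + 2) aa (δ - kτ) (2 * ld + k) i₀.succ j₀.succ
    (by
      intro i j
      refine Fin.cases ?_ (fun i' => ?_) i <;> refine Fin.cases ?_ (fun j' => ?_) j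
      · intro h; exact absurd rfl h
      · intro _ _ _
        have h5 := hpair 0 j'.succ
        rw [hdet', det_eq, map_mul, absW_exp v hδ] at h5
        simp only [Fin.cases_zero, Fin.cases_succ, map_neg_eq_map, map_one, mul_one] at h5
        rw [zpow_le_zpow_iff_right₀ (by norm_num)] at h5
        simp only [haa, Fin.cons_zero, Fin.cons_succ]
        linarith
      · intro _ _ _
        have h5 := hpair i'.succ 0
        rw [hdet', det_eq, map_mul, absW_exp v hδ] at h5
        simp only [Fin.cases_zero, Fin.cases_succ, map_one, mul_one] at h5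
        rw [zpow_le_zpow_iff_right₀ (by norm_num)] at h5
        simp only [haa, Fin.cons_zero, Fin.cons_succ]
        linarith
      · intro hij hs1 hs2
        have h5 := hpair i'.succ j'.succ
        rw [hdet', det_eq, map_mul, absW_exp v hδ] at h5
        simp only [Fin.cases_succ] at h5
        have h6 := hsim i' j' (fun h => hij (by rw [h])) (fun h => hs1 ⟨by rw [h.1], by rw [h.2]⟩)
          (fun h => hs2 ⟨by rw [h.1], by rw [h.2]⟩)
        rw [h6, absW_exp v hkτ, ← zpow_add₀ (by norm_num),
          zpow_le_zpow_iff_right₀ (by norm_num)] at h5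
        simp only [haa, Fin.cons_succ]
        linarith) (by
      have h5 : Real.log (absW v (l ^ 2 * d) * ∏ i, max (absW v (α' i)) (absW v (β' i))) ≤ 0 := by
        apply Real.log_nonpos _ hA1
        exact mul_nonneg ((absW v).nonneg _) (Finset.prod_nonneg fun i _ =>
          ((absW v).nonneg _).trans (le_max_left _ _))
      have hpr : ∏ i, max (absW v (α' i)) (absW v (β' i)) ≠ 0 :=
        Finset.prod_ne_zero_iff.mpr fun i _ => by rw [hp i]; positivity
      rw [Real.log_mul ((absW v).pos hu).ne' hpr, Real.log_prod (fun i _ => by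
        rw [hp i]; positivity), Finset.sum_congr rfl fun i _ => by rw [hp i, Real.log_zpow],
        ← Finset.sum_mul, map_mul, map_pow, absW_exp v hld, absW_exp v hkd,
        Real.log_mul (by positivity) (by positivity), Real.log_pow, Real.log_zpow,
        Real.log_zpow] at h5
      have h6 : ((2 * ld + kd + ∑ i, p i : ℤ) : ℝ) * Real.log 2 ≤ 0 := by
        push_cast
        push_cast at h5
        linarith
      have h7 : ((2 * ld + kd + ∑ i, p i : ℤ) : ℝ) ≤ 0 := by
        by_contra hcon
        push Not at hcon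
        exact absurd h6 (not_le.mpr (mul_pos hcon hlog2))
      have h8 : (2 * ld + kd + ∑ i, p i : ℤ) ≤ 0 := by exact_mod_cast h7
      have h9 : ∑ i, p i = ∑ i, aa i + m * kτ := by
        rw [Fin.sum_univ_succ, Fin.sum_univ_succ aa]
        simp only [haa, Fin.cons_zero, Fin.cons_succ]
        rw [Finset.sum_sub_distrib, Finset.sum_const, Finset.card_univ, Fintype.card_fin,
          nsmul_eq_mul]
        ring
      rw [hkk]
      linarith) (by
      obtain ⟨q, hq⟩ := hodd
      exact ⟨ld + q, by rw [hq]; ring⟩)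
  -- the discriminant
  have hdl : Real.log (absW v (discN (m + 1) G)) = 2 * m * Real.log (absW v (l ^ 2 * d)) +
      (m + 1) * m * Real.log (absW v (a * d' - b * c)) +
        ∑ i, ∑ j ∈ univ.erase i, Real.log (absW v (e i - e j)) := by
    have e1 := abs_discN_prod_lin (absW v) hu α' β' hne' (by rw [Fintype.card_fin]; omega)
    rw [Fintype.card_fin, Nat.add_sub_cancel, ← hGe] at e1
    have hpq : ∀ i, ∀ j ∈ univ.erase i, absW v (α' i * β' j - α' j * β' i) ≠ 0 :=
      fun i j hj => ((absW v).pos (hne' i j (Finset.ne_of_mem_erase hj).symm)).ne'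
    rw [e1, Real.log_mul (pow_pos ((absW v).pos hu) _).ne'
      (Finset.prod_ne_zero_iff.mpr fun i _ => Finset.prod_ne_zero_iff.mpr (hpq i)), Real.log_pow,
      Real.log_prod fun i _ => Finset.prod_ne_zero_iff.mpr (hpq i)]
    have e2 : ∀ i : Fin (m + 1), Real.log (∏ j ∈ univ.erase i,
        absW v (α' i * β' j - α' j * β' i)) = m * Real.log (absW v (a * d' - b * c)) +
          ∑ j ∈ univ.erase i, Real.log (absW v (al K m i * be e j - al K m j * be e i)) := by
      intro i
      rw [Real.log_prod (hpq i)]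
      have e3 : ∀ j ∈ univ.erase i, Real.log (absW v (α' i * β' j - α' j * β' i)) =
          Real.log (absW v (a * d' - b * c)) +
            Real.log (absW v (al K m i * be e j - al K m j * be e i)) := by
        intro j hj
        rw [hdet', map_mul, Real.log_mul ((absW v).pos hdet).ne'
          ((absW v).pos (det_ne he i j (Finset.ne_of_mem_erase hj).symm)).ne']
      rw [Finset.sum_congr rfl e3, Finset.sum_add_distrib, Finset.sum_const,
        Finset.card_erase_of_mem (mem_univ _), Finset.card_univ, Fintype.card_fin,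
        Nat.add_sub_cancel, nsmul_eq_mul]
    rw [Finset.sum_congr rfl fun i _ => e2 i, Finset.sum_add_distrib, Finset.sum_const,
      Finset.card_univ, Fintype.card_fin, nsmul_eq_mul,
      sum_det e (fun x => Real.log (absW v x)) (by simp) (by simp)]
    push_cast
    ring
  rw [log_absW v hdisc, map_mul, map_pow, absW_exp v hld, absW_exp v hkd,
    Real.log_mul (by positivity) (by positivity), Real.log_pow, Real.log_zpow, Real.log_zpow,
    log_absW v hδ] at hdl
  have hcount : ∑ i : Fin m, ∑ j ∈ univ.erase i, (Real.log (absW v τ) -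
      Real.log (absW v (e i - e j))) = m * (m - 1) * (kτ * Real.log 2) -
        ∑ i, ∑ j ∈ univ.erase i, Real.log (absW v (e i - e j)) := by
    have e1 : ∀ i : Fin m, ∑ j ∈ univ.erase i, (Real.log (absW v τ) -
        Real.log (absW v (e i - e j))) = (m - 1) * (kτ * Real.log 2) -
          ∑ j ∈ univ.erase i, Real.log (absW v (e i - e j)) := by
      intro i
      have hm1 : 1 ≤ m := by omega
      rw [Finset.sum_sub_distrib, Finset.sum_const, Finset.card_erase_of_mem (mem_univ _),
        Finset.card_univ, Fintype.card_fin, nsmul_eq_mul, Nat.cast_sub hm1, Nat.cast_one,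
        log_absW v hkτ]
    rw [Finset.sum_congr rfl fun i _ => e1 i, Finset.sum_sub_distrib, Finset.sum_const,
      Finset.card_univ, Fintype.card_fin, nsmul_eq_mul]
    ring
  rw [hcount]
  have hpar' : ((2 * ld + k : ℤ) : ℝ) + (g + 1) * ((δ - kτ : ℤ) : ℝ) ≤ -1 := by exact_mod_cast hpar
  have hm' : (m : ℝ) = 2 * g + 1 := by exact_mod_cast hm
  have hfin : (2 * m : ℝ) * (((2 * ld + k : ℤ) : ℝ) + (g + 1) * ((δ - kτ : ℤ) : ℝ)) * Real.log 2 ≤
      2 * m * (-1) * Real.log 2 := by
    refine mul_le_mul_of_nonneg_right (mul_le_mul_of_nonneg_left hpar' (by positivity)) hlog2.le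
  have hkk' : (k : ℝ) = kd + m * kτ := by exact_mod_cast hkk
  push_cast at hdl hfin ⊢
  rw [hkk', hm'] at hfin
  rw [hm'] at hdl ⊢
  nlinarith

end

end Pool.Agent.TH905.HS
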