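import Mathlib

set_option autoImplicit false

/-!
Elements of a number field with prescribed valuations outside a fixed finite set.
-/

namespace Pool.Agent.TH905.HS

open Finset NumberField IsDedekindDomain WithZero

lemma cnt_prod {K : Type*} [Field K] [NumberField K] (v : HeightOneSpectrum (𝓞 K))
    (R : Finset (HeightOneSpectrum (𝓞 K))) [DecidableEq (HeightOneSpectrum (𝓞 K))] :
    FractionalIdeal.count K v ((∏ w ∈ R, w.asIdeal : Ideal (𝓞 K)) :
      FractionalIdeal (nonZeroDivisors (𝓞 K)) K) = if v ∈ R then 1 else 0 := by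
  induction R using Finset.induction_on with
  | empty => simp [FractionalIdeal.count_one]
  | insert w R hw ih =>
    have h0 : ∀ R : Finset (HeightOneSpectrum (𝓞 K)), (∏ w ∈ R, w.asIdeal : Ideal (𝓞 K)) ≠ 0 :=
      fun R => Finset.prod_ne_zero_iff.mpr fun w _ => w.ne_bot
    rw [Finset.prod_insert hw, FractionalIdeal.coeIdeal_mul, FractionalIdeal.count_mul, ih,
      FractionalIdeal.count_maximal]
    · by_cases h : w = v
      · subst h
        rw [if_pos rfl, if_neg hw, if_pos (mem_insert_self _ _), add_zero]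
      · rw [if_neg h, zero_add]
        by_cases h' : v ∈ R
        · rw [if_pos h', if_pos (mem_insert_of_mem h')]
        · rw [if_neg h', if_neg]
          rw [mem_insert, not_or]
          exact ⟨fun e => h e.symm, h'⟩
    · exact FractionalIdeal.coeIdeal_ne_zero.mpr w.ne_bot
    · exact FractionalIdeal.coeIdeal_ne_zero.mpr (h0 R)

theorem exists_twist (K : Type*) [Field K] [NumberField K]
    [DecidableEq (HeightOneSpectrum (𝓞 K))] : ∃ S1 : Finset (HeightOneSpectrum (𝓞 K)),
    ∀ R : Finset (HeightOneSpectrum (𝓞 K)), ∃ d : K, d ≠ 0 ∧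
      ∀ v ∉ S1, v.valuation K d = if v ∈ R then exp (-1) else 1 := by
  choose I hI using ClassGroup.mk0_surjective (R := 𝓞 K)
  have hfin : ∀ c, {v : HeightOneSpectrum (𝓞 K) | v.asIdeal ∣ (I c : Ideal (𝓞 K))}.Finite :=
    fun c => Ideal.finite_factors (mem_nonZeroDivisors_iff_ne_zero.mp (I c).2)
  refine ⟨univ.biUnion fun c => (hfin c).toFinset, fun R => ?_⟩
  set J : Ideal (𝓞 K) := ∏ w ∈ R, w.asIdeal with hJ
  have hJ0 : J ≠ 0 := Finset.prod_ne_zero_iff.mpr fun w _ => w.ne_bot
  have hJ1 : J ∈ nonZeroDivisors (Ideal (𝓞 K)) := mem_nonZeroDivisors_iff_ne_zero.mpr hJ0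
  set c := ClassGroup.mk0 ⟨J, hJ1⟩ with hc
  obtain ⟨β, α, hβ, hα, hαβ⟩ := ClassGroup.mk0_eq_mk0_iff.mp (hI c)
  simp only at hαβ
  have hβ' : ((β : 𝓞 K) : K) ≠ 0 := RingOfIntegers.coe_ne_zero_iff.mpr hβ
  have hα' : ((α : 𝓞 K) : K) ≠ 0 := RingOfIntegers.coe_ne_zero_iff.mpr hα
  refine ⟨(β : K) / (α : K), div_ne_zero hβ' hα', fun v hv => ?_⟩
  have hI0 : (I c : Ideal (𝓞 K)) ≠ 0 := mem_nonZeroDivisors_iff_ne_zero.mp (I c).2
  have hsp : ∀ {r : 𝓞 K}, r ≠ 0 → (Ideal.span {r} : Ideal (𝓞 K)) ≠ 0 := by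
    intro r hr
    rwa [Ideal.zero_eq_bot, Ne, Ideal.span_singleton_eq_bot]
  have hcI : FractionalIdeal.count K v ((I c : Ideal (𝓞 K)) :
      FractionalIdeal (nonZeroDivisors (𝓞 K)) K) = 0 := by
    rw [FractionalIdeal.count_coe K v hI0]
    have hnd : ¬ v.asIdeal ∣ (I c : Ideal (𝓞 K)) := by
      intro h
      exact hv (mem_biUnion.mpr ⟨c, mem_univ _, (Set.Finite.mem_toFinset _).mpr h⟩)
    have : ¬ (Associates.mk v.asIdeal ∣ Associates.mk (I c : Ideal (𝓞 K))) := by
      rwa [Associates.mk_dvd_mk]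
    have h1 : Associates.count (Associates.mk v.asIdeal)
        (Associates.mk (I c : Ideal (𝓞 K))).factors = 0 := by
      by_contra hne
      apply this
      have := (Associates.count_ne_zero_iff_dvd hI0 v.irreducible).mp hne
      rwa [Associates.mk_dvd_mk]
    exact_mod_cast h1
  have hval : ∀ {r : 𝓞 K}, r ≠ 0 → v.valuation K (r : K) =
      exp (-(FractionalIdeal.count K v ((Ideal.span {r} : Ideal (𝓞 K)) :
        FractionalIdeal (nonZeroDivisors (𝓞 K)) K))) := by
    intro r hr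
    rw [FractionalIdeal.count_coe K v (hsp hr)]
    have := v.valuation_of_algebraMap (K := K) r
    rw [v.intValuation_if_neg hr] at this
    exact this
  have hmul : FractionalIdeal.count K v ((Ideal.span {β} : Ideal (𝓞 K)) :
      FractionalIdeal (nonZeroDivisors (𝓞 K)) K) = FractionalIdeal.count K v
      ((Ideal.span {α} : Ideal (𝓞 K)) : FractionalIdeal (nonZeroDivisors (𝓞 K)) K) +
        if v ∈ R then 1 else 0 := by
    have h1 := congrArg (fun A : Ideal (𝓞 K) => FractionalIdeal.count K v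
      (A : FractionalIdeal (nonZeroDivisors (𝓞 K)) K)) hαβ
    simp only [FractionalIdeal.coeIdeal_mul] at h1
    rw [FractionalIdeal.count_mul, FractionalIdeal.count_mul, hcI, add_zero, cnt_prod] at h1
    · exact h1
    · exact FractionalIdeal.coeIdeal_ne_zero.mpr (hsp hα)
    · exact FractionalIdeal.coeIdeal_ne_zero.mpr hJ0
    · exact FractionalIdeal.coeIdeal_ne_zero.mpr (hsp hβ)
    · exact FractionalIdeal.coeIdeal_ne_zero.mpr hI0
  rw [map_div₀, hval hβ, hval hα, hmul, ← exp_sub]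
  split_ifs
  · congr 1
    ring
  · rw [← exp_zero]
    congr 1
    ring

end Pool.Agent.TH905.HS
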