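import Pool.Agent.TH905.HS.Fin1
import Pool.Agent.TH905.HS.Low
import Pool.Agent.TH905.HS.Tw

set_option autoImplicit false

/-!
Hyperelliptic curves with rational Weierstrass points: ramified twists.
-/

namespace Pool.Agent.TH905.HS

open Finset NumberField IsDedekindDomain Pool.Agent.H691R3 Pool.Agent.W232.VA Height
  LinearAlgebra.Projectivization Pool.Agent.W318 WithZero

section

variable {K : Type} [Field K] [NumberField K] {n g : ℕ}

lemma Lam_off (f : AbsoluteValue K ℝ) (x : Fin (n + 1) → K) :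
    Lam f x = ∑ p ∈ (univ : Finset (Fin (n + 2))).offDiag, lam f (form K p.1 p.2) x := by
  classical
  unfold Lam
  have h1 : ∀ i : Fin (n + 2), ∑ j ∈ univ.erase i, lam f (form K i j) x =
      ∑ j, if i ≠ j then lam f (form K i j) x else 0 := by
    intro i
    rw [← Finset.sum_filter]
    congr 1
    ext j
    simp [eq_comm]
  rw [Finset.sum_congr rfl fun i _ => h1 i, ← Finset.sum_product' univ univ
    (fun i j => if i ≠ j then lam f (form K i j) x else 0), ← Finset.sum_filter]
  refine Finset.sum_congr ?_ fun _ _ => rfl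
  ext p
  simp

lemma log_Nv_le_lam (v : HeightOneSpectrum (𝓞 K)) {x : Fin (n + 1) → K}
    (hx : Function.Injective (root x)) {i j : Fin (n + 2)} (hij : i ≠ j)
    (hpos : 0 < lam (fv v) (form K i j) x) : Real.log (Nv v) ≤ lam (fv v) (form K i j) x := by
  obtain ⟨k, hk⟩ := lam_fin v (form_ne hij) (rep_ne' hx) (lin_ne hx hij)
  have hN := log_Nv_pos v
  rw [hk] at hpos ⊢
  have h1 : (0 : ℝ) < k := by
    by_contra hcon
    push Not at hcon
    have : (k : ℝ) = 0 := le_antisymm hcon (Nat.cast_nonneg _)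
    rw [this, zero_mul] at hpos
    exact lt_irrefl _ hpos
  have h2 : (1 : ℝ) ≤ k := by exact_mod_cast (by exact_mod_cast h1 : 0 < k)
  nlinarith

/-- at a simple place exactly one pair of roots is congruent -/
lemma simple_pair (v : HeightOneSpectrum (𝓞 K)) {x : Fin (n + 1) → K}
    (hx : Function.Injective (root x)) (hpos : ∃ i j, i ≠ j ∧ 0 < lam (fv v) (form K i j) x)
    (hle : Lam (fv v) x ≤ 2 * Real.log (Nv v)) :
    2 * Real.log (Nv v) ≤ Lam (fv v) x ∧ ∃ i₀ j₀ : Fin (n + 2), ∀ i j, i ≠ j →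
      ¬(i = i₀ ∧ j = j₀) → ¬(i = j₀ ∧ j = i₀) → lam (fv v) (form K i j) x = 0 := by
  classical
  obtain ⟨i₀, j₀, h₀, hpos₀⟩ := hpos
  have hN := log_Nv_pos v
  have h1 := log_Nv_le_lam v hx h₀ hpos₀
  have h2 : Real.log (Nv v) ≤ lam (fv v) (form K j₀ i₀) x := by
    rw [← lam_form_symm _ h₀]; exact h1
  have hnn : ∀ p ∈ (univ : Finset (Fin (n + 2))).offDiag, 0 ≤ lam (fv v) (form K p.1 p.2) x := by
    intro p hp
    rw [mem_offDiag] at hp
    exact lam_fin_nonneg v (form_ne hp.2.2) (rep_ne' hx) (lin_ne hx hp.2.2)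
  have hne : ((i₀, j₀) : Fin (n + 2) × Fin (n + 2)) ≠ (j₀, i₀) := by
    intro h
    exact h₀ (Prod.ext_iff.mp h).1
  rw [Lam_off] at hle ⊢
  refine ⟨?_, i₀, j₀, ?_⟩
  · have h3 : ∑ p ∈ ({(i₀, j₀), (j₀, i₀)} : Finset (Fin (n + 2) × Fin (n + 2))),
        lam (fv v) (form K p.1 p.2) x ≤ ∑ p ∈ (univ : Finset (Fin (n + 2))).offDiag,
          lam (fv v) (form K p.1 p.2) x := by
      refine Finset.sum_le_sum_of_subset_of_nonneg ?_ fun p hp _ => hnn p hp
      intro p hp
      rw [mem_insert, mem_singleton] at hp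
      rw [mem_offDiag]
      rcases hp with rfl | rfl
      · exact ⟨mem_univ _, mem_univ _, h₀⟩
      · exact ⟨mem_univ _, mem_univ _, h₀.symm⟩
    rw [Finset.sum_pair hne] at h3
    simp only at h3
    linarith
  · intro i j hij hn1 hn2
    by_contra hne0
    have hp : 0 < lam (fv v) (form K i j) x := lt_of_le_of_ne
      (hnn (i, j) (mem_offDiag.mpr ⟨mem_univ _, mem_univ _, hij⟩)) (Ne.symm hne0)
    have h3 := log_Nv_le_lam v hx hij hp
    have h4 : ∑ p ∈ ({(i, j), (i₀, j₀), (j₀, i₀)} : Finset (Fin (n + 2) × Fin (n + 2))),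
        lam (fv v) (form K p.1 p.2) x ≤ ∑ p ∈ (univ : Finset (Fin (n + 2))).offDiag,
          lam (fv v) (form K p.1 p.2) x := by
      refine Finset.sum_le_sum_of_subset_of_nonneg ?_ fun p hp _ => hnn p hp
      intro p hp
      rw [mem_insert, mem_insert, mem_singleton] at hp
      rw [mem_offDiag]
      rcases hp with rfl | rfl | rfl
      · exact ⟨mem_univ _, mem_univ _, hij⟩
      · exact ⟨mem_univ _, mem_univ _, h₀⟩
      · exact ⟨mem_univ _, mem_univ _, h₀.symm⟩
    rw [Finset.sum_insert, Finset.sum_pair hne] at h4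
    · simp only at h4
      linarith
    · rw [mem_insert, mem_singleton, not_or]
      exact ⟨fun h => hn1 (Prod.ext_iff.mp h), fun h => hn2 (Prod.ext_iff.mp h)⟩

/-- integrality of `wt` -/
lemma wt_int (v : HeightOneSpectrum (𝓞 K)) {x : Fin (n + 1) → K}
    (hx : Function.Injective (root x)) :
    ∃ k : ℕ, wt (fv v) (arr K n) x = k * Real.log (Nv v) := by
  classical
  obtain ⟨I, _, hI⟩ := wt_att (fv v) (arr K n) x
  have h : ∀ i, ∃ k : ℕ, lam (fv v) (arr K n i) x = k * Real.log (Nv v) := fun i =>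
    lam_fin v (arr_ne i) (rep_ne' hx) (lin_ne hx ((Fintype.equivFin (Idx n)).symm i).2)
  choose k hk using h
  refine ⟨∑ i ∈ I, k i, ?_⟩
  rw [hI, Finset.sum_congr rfl fun i _ => hk i, ← Finset.sum_mul]
  push_cast
  rfl

/-- a place with a nonzero local height has `wt ≥ log N`; if it is not simple, `wt ≥ 2 log N` -/
lemma wt_ge (v : HeightOneSpectrum (𝓞 K)) {x : Fin (n + 1) → K}
    (hx : Function.Injective (root x)) (hpos : ∃ i j, i ≠ j ∧ 0 < lam (fv v) (form K i j) x) :
    Real.log (Nv v) ≤ wt (fv v) (arr K n) x ∧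
      (¬ Lam (fv v) x ≤ 2 * Real.log (Nv v) → 2 * Real.log (Nv v) ≤ wt (fv v) (arr K n) x) := by
  have hN := log_Nv_pos v
  have h1 := local_main v hx hpos
  obtain ⟨k, hk⟩ := wt_int v hx
  have hL := Lam_nonneg v hx
  obtain ⟨i, j, hij, hp⟩ := hpos
  have h2 := log_Nv_le_lam v hx hij hp
  have hn0 : (0 : ℝ) ≤ n := Nat.cast_nonneg n
  -- positivity of the weight
  have h3 : 2 * Real.log (Nv v) ≤ Lam (fv v) x := by
    by_cases h : Lam (fv v) x ≤ 2 * Real.log (Nv v)
    · exact (simple_pair v hx ⟨i, j, hij, hp⟩ h).1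
    · exact (not_le.mp h).le
  have h4 : (0 : ℝ) < k := by
    by_contra hcon
    push Not at hcon
    have h5 : (k : ℝ) = 0 := le_antisymm hcon (Nat.cast_nonneg _)
    rw [hk, h5] at h1
    nlinarith
  have h5 : (1 : ℝ) ≤ k := by exact_mod_cast (by exact_mod_cast h4 : 0 < k)
  constructor
  · rw [hk]
    nlinarith
  · intro hns
    push Not at hns
    rw [hk] at h1 ⊢
    have h6 : (1 : ℝ) < k := by
      by_contra hcon
      push Not at hcon
      have h7 : (k : ℝ) = 1 := le_antisymm hcon h5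
      rw [h7] at h1
      nlinarith
    have h7 : (2 : ℝ) ≤ k := by
      have : 1 < k := by exact_mod_cast h6
      exact_mod_cast this
    nlinarith

/-- unramified twist: good reduction where all local heights vanish -/
lemma minExp_zero (hn : n + 1 = 2 * g) (hg : 2 ≤ g) {d : K} (hd : d ≠ 0)
    {x : Fin (n + 1) → K} (hx : Function.Injective (root x)) (v : HeightOneSpectrum (𝓞 K))
    (h2 : v.valuation K (2 : K) = 1) {l : Fin (n + 1)} (hl : (⨆ j, fv v (x j)) = fv v (x l))
    {k : ℤ} (hk : v.valuation K (d * x l ^ (n + 2)) = exp k) (hev : Even k)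
    (hL : Lam (fv v) x = 0) : minExp g (pol d (root x)) v = 0 := by
  have hmax : ∀ i, absW v (root x i) ≤ absW v (x l) := fun i =>
    absW_le_of_fv (by rw [← hl]; exact root_le (fv v) x i)
  have h := minExp_bound_even (g := g) (m := n + 2) (t := 0) (by omega) hd hx v (by simp [h2])
    (rep_ne hx l) hmax (by omega) hk hev
  have h1 := Lam_conv hx v hl
  rw [hL, zero_mul] at h1
  have h3 := (mul_eq_zero.mp h1.symm).resolve_right (log_Nv_pos v).ne'
  rw [h3] at h
  have hlog2 : 0 < Real.log 2 := Real.log_pos one_lt_two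
  simp only [Nat.cast_zero, mul_zero, zero_mul, add_zero] at h
  have h4 : (minExp g (pol d (root x)) v : ℝ) ≤ 0 := by
    by_contra hcon
    push Not at hcon
    exact absurd h (not_le.mpr (mul_pos hcon hlog2))
  exact_mod_cast le_antisymm h4 (Nat.cast_nonneg _)

/-- ramified twist at a simple place -/
lemma minExp_ge (hn : n + 1 = 2 * g) (hg : 2 ≤ g) {d : K} (hd : d ≠ 0)
    {x : Fin (n + 1) → K} (hx : Function.Injective (root x)) (v : HeightOneSpectrum (𝓞 K))
    (h2 : v.valuation K (2 : K) = 1) {l : Fin (n + 1)} (hl : (⨆ j, fv v (x j)) = fv v (x l))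
    {k : ℤ} (hk : v.valuation K (d * x l ^ (n + 2)) = exp k) (hodd : Odd k)
    (hpos : ∃ i j, i ≠ j ∧ 0 < lam (fv v) (form K i j) x)
    (hle : Lam (fv v) x ≤ 2 * Real.log (Nv v)) :
    (4 * g + 4) * Real.log (Nv v) ≤ (minExp g (pol d (root x)) v : ℝ) * Real.log (Nv v) := by
  obtain ⟨hge, i₀, j₀, hsim⟩ := simple_pair v hx hpos hle
  have hN := log_Nv_pos v
  have hsim' : ∀ i j, i ≠ j → ¬(i = i₀ ∧ j = j₀) → ¬(i = j₀ ∧ j = i₀) →
      absW v (root x i - root x j) = absW v (x l) := by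
    intro i j hij h1 h3
    have h4 := hsim i j hij h1 h3
    rw [lam_split _ hx hij, hl, sub_eq_zero] at h4
    have h5 : fv v (x l) = fv v (root x i - root x j) :=
      Real.log_injOn_pos ((fv v).pos (rep_ne hx l))
        ((fv v).pos (sub_ne_zero.mpr (hx.ne hij))) h4
    exact le_antisymm (absW_le_of_fv h5.ge) (absW_le_of_fv h5.le)
  have h := minExp_low (g := g) (m := n + 2) hg (by omega) hd hx v h2 (rep_ne hx l) i₀ j₀ hsim' hk
    hodd
  have h1 := Lam_conv hx v hl
  have hlog2 : 0 < Real.log 2 := Real.log_pos one_lt_two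
  have h3 := mul_le_mul_of_nonneg_right h hN.le
  have h4 : (2 * (n + 2) * Real.log (Nv v) + Lam (fv v) x) * Real.log 2 ≤
      ((minExp g (pol d (root x)) v : ℝ) * Real.log (Nv v)) * Real.log 2 := by
    rw [add_mul, h1]
    push_cast at h3 ⊢
    linarith
  have h5 := le_of_mul_le_mul_right h4 hlog2
  have hn' : (n : ℝ) + 1 = 2 * g := by exact_mod_cast hn
  have h6 : (n : ℝ) = 2 * g - 1 := by linarith
  rw [h6] at h5
  linarith

end

end Pool.Agent.TH905.HS
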