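import Pool.Agent.TH905.HS.Fin4
import Pool.Agent.TH905.HS.Fin3

set_option autoImplicit false

/-!
Hyperelliptic curves with rational Weierstrass points: the exponent `4 g + 4` is best possible.
-/

namespace Pool.Agent.TH905.HS

open Finset NumberField IsDedekindDomain Pool.Agent.H691R3 Pool.Agent.W232.VA Height
  LinearAlgebra.Projectivization Pool.Agent.W318 WithZero

section

variable {K : Type} [Field K] [NumberField K] {n g : ℕ}

/-- a twist which is ramified exactly at the primes where two roots are congruent -/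
theorem exists_bad_twist (K : Type) [Field K] [NumberField K] (hn : n + 1 = 2 * g) (hg : 2 ≤ g) :
    ∃ (S : Finset (HeightOneSpectrum (𝓞 K))) (c₂ : ℝ), 0 ≤ c₂ ∧
      ∀ x : Fin (n + 1) → K, Function.Injective (root x) → ∃ d : K, d ≠ 0 ∧
        Real.log (badNorm g (pol d (root x))) ≤ N1 S (arr K n) x + c₂ ∧
        (4 * g + 4) * (2 * N1 S (arr K n) x - hW (arr K n) x) ≤
          Real.log (discNorm g (pol d (root x))) := by
  classical
  obtain ⟨S1, hS1⟩ := exists_twist K
  set S : Finset (HeightOneSpectrum (𝓞 K)) := (finite_two K).toFinset ∪ S1 with hS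
  have hS2 : ∀ v ∉ S, v.valuation K (2 : K) = 1 := by
    intro v hv
    by_contra hne
    exact hv (Finset.mem_union_left _ ((Set.Finite.mem_toFinset _).mpr hne))
  refine ⟨S, ∑ v ∈ S, Real.log (Nv v), Finset.sum_nonneg fun v _ => (log_Nv_pos v).le, ?_⟩
  intro x hx
  obtain ⟨T, hT⟩ := exists_supp' hx
  have hT' := arr_lam_zero hx hT
  -- the coordinates of maximal size and their valuations
  choose l hl using fun v : HeightOneSpectrum (𝓞 K) => sup_att (fv v) x
  choose k hk using fun v : HeightOneSpectrum (𝓞 K) => exists_exp v (rep_ne hx (l v))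
  set P : HeightOneSpectrum (𝓞 K) → Prop := fun v => ∃ i, 0 < lam (fv v) (arr K n i) x with hP
  have hPe : ∀ v, P v → ∃ i j, i ≠ j ∧ 0 < lam (fv v) (form K i j) x := by
    rintro v ⟨i, hi⟩
    exact ⟨_, _, ((Fintype.equivFin (Idx n)).symm i).2, hi⟩
  have hPn : ∀ v, ¬ P v → Lam (fv v) x = 0 := by
    intro v hv
    unfold Lam
    refine Finset.sum_eq_zero fun i _ => Finset.sum_eq_zero fun j hj => ?_
    have hij := (Finset.ne_of_mem_erase hj).symm
    by_contra hne
    apply hv
    have h1 : 0 < lam (fv v) (form K i j) x := lt_of_le_of_ne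
      (lam_fin_nonneg v (form_ne hij) (rep_ne' hx) (lin_ne hx hij)) (Ne.symm hne)
    exact ⟨Fintype.equivFin (Idx n) ⟨(i, j), hij⟩, by rw [arr_equiv]; exact h1⟩
  have hPT : ∀ v, P v → v ∈ T := by
    rintro v ⟨i, hi⟩
    by_contra hv
    rw [hT' v hv i] at hi
    exact lt_irrefl _ hi
  set R : Finset (HeightOneSpectrum (𝓞 K)) := T.filter fun v => v ∉ S ∧ P v with hR
  have hN1 : N1 S (arr K n) x = ∑ v ∈ R, Real.log (Nv v) := by
    rw [N1_eq' S hT', hR, Finset.sum_filter]
  have hW1 := hW_eq' (x := x) hT'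
  set R' : Finset (HeightOneSpectrum (𝓞 K)) :=
    T.filter fun v => (v ∈ R ∧ Even (k v)) ∨ (v ∉ R ∧ Odd (k v)) with hR'
  obtain ⟨d, hd, hdv⟩ := hS1 R'
  -- outside T the maximal coordinate is a unit
  have hkT : ∀ v ∉ T, k v = 0 := by
    intro v hv
    have h1 := (hT v hv).1 (l v)
    rw [fv_of_exp v (hk v)] at h1
    have hN : 1 < Nv v := by linarith [two_le_Nv v]
    exact (zpow_eq_one_iff_right₀ (by linarith) hN.ne').mp h1
  have hodd_n : Odd ((n : ℤ) + 2) := by
    have hnz : (n : ℤ) + 1 = 2 * g := by exact_mod_cast hn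
    exact ⟨g, by linarith⟩
  -- the parity of the twist
  have hpar : ∀ v ∉ S1, ∃ q : ℤ, v.valuation K (d * x (l v) ^ (n + 2)) = exp q ∧
      (v ∈ R → Odd q) ∧ (v ∉ R → Even q) := by
    intro v hv
    have h1 := hdv v hv
    have h2 : v.valuation K (x (l v) ^ (n + 2)) = exp (((n : ℤ) + 2) * k v) := by
      rw [map_pow, hk v, ← exp_nsmul]
      congr 1
    have hRT : v ∈ R → v ∈ T := fun h => (Finset.mem_filter.mp h).1
    have heven : Even (k v) → Even (((n : ℤ) + 2) * k v) := fun h => h.mul_left _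
    have hodd : Odd (k v) → Odd (((n : ℤ) + 2) * k v) := fun h => hodd_n.mul h
    by_cases hvR' : v ∈ R'
    · rw [if_pos hvR'] at h1
      refine ⟨-1 + ((n : ℤ) + 2) * k v, by rw [map_mul, h1, h2, ← exp_add], ?_, ?_⟩
      · intro hvR
        rw [hR', mem_filter] at hvR'
        rcases hvR'.2 with h | h
        · exact Odd.add_even (by decide) (heven h.2)
        · exact absurd hvR h.1
      · intro hvR
        rw [hR', mem_filter] at hvR'
        rcases hvR'.2 with h | h
        · exact absurd h.1 hvR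
        · exact Odd.add_odd (by decide) (hodd h.2)
    · rw [if_neg hvR'] at h1
      refine ⟨((n : ℤ) + 2) * k v, by rw [map_mul, h1, h2, one_mul], ?_, ?_⟩
      · intro hvR
        rcases Int.even_or_odd (k v) with h | h
        · exact absurd (mem_filter.mpr ⟨hRT hvR, Or.inl ⟨hvR, h⟩⟩) hvR'
        · exact hodd h
      · intro hvR
        rcases Int.even_or_odd (k v) with h | h
        · exact heven h
        · by_cases hvT : v ∈ T
          · exact absurd (mem_filter.mpr ⟨hvT, Or.inr ⟨hvR, h⟩⟩) hvR'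
          · rw [hkT v hvT] at h
            exact absurd h (by decide)
  have hSS1 : ∀ v ∉ S, v ∉ S1 := fun v hv h => hv (Finset.mem_union_right _ h)
  refine ⟨d, hd, ?_, ?_⟩
  · -- the bad primes
    rw [log_badNorm hn hd hx, hN1, ← Finset.sum_union]
    · refine Finset.sum_le_sum_of_subset_of_nonneg ?_ fun v _ _ => (log_Nv_pos v).le
      intro v hv
      rw [Set.Finite.mem_toFinset] at hv
      by_contra hcon
      rw [mem_union, not_or] at hcon
      apply hv
      obtain ⟨q, hq, _, hev⟩ := hpar v (hSS1 v hcon.2)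
      have hnP : ¬ P v := fun h => hcon.1 (mem_filter.mpr ⟨hPT v h, hcon.2, h⟩)
      exact minExp_zero hn hg hd hx v (hS2 v hcon.2) (hl v) hq (hev hcon.1) (hPn v hnP)
    · rw [Finset.disjoint_left]
      intro v hv
      exact (mem_filter.mp hv).2.1
  · -- the discriminant
    set R1 : Finset (HeightOneSpectrum (𝓞 K)) :=
      R.filter fun v => Lam (fv v) x ≤ 2 * Real.log (Nv v) with hR1
    have h1 : ∑ v ∈ R1, (4 * g + 4) * Real.log (Nv v) ≤
        Real.log (discNorm g (pol d (root x))) := by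
      rw [log_discNorm hn hd hx]
      have e1 : ∑ v ∈ R1, (4 * g + 4) * Real.log (Nv v) ≤
          ∑ v ∈ R1, (minExp g (pol d (root x)) v : ℝ) * Real.log (Nv v) := by
        refine Finset.sum_le_sum fun v hv => ?_
        rw [hR1, mem_filter, hR, mem_filter] at hv
        obtain ⟨⟨hvT, hvS, hvP⟩, hle⟩ := hv
        obtain ⟨q, hq, ho, _⟩ := hpar v (hSS1 v hvS)
        exact minExp_ge hn hg hd hx v (hS2 v hvS) (hl v) hq
          (ho (mem_filter.mpr ⟨hvT, hvS, hvP⟩)) (hPe v hvP) hle
      refine e1.trans (Finset.sum_le_sum_of_subset_of_nonneg ?_ fun v _ _ =>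
        mul_nonneg (Nat.cast_nonneg _) (log_Nv_pos v).le)
      intro v hv
      rw [hR1, mem_filter, hR, mem_filter] at hv
      obtain ⟨⟨hvT, hvS, hvP⟩, _⟩ := hv
      rw [Set.Finite.mem_toFinset]
      obtain ⟨i, j, hij, hp⟩ := hPe v hvP
      exact bad_of_lam hn hg hd hx v (hS2 v hvS) hij hp
    -- the other primes
    have h2 : ∑ v ∈ R, Real.log (Nv v) + ∑ v ∈ R.filter
        (fun v => ¬ Lam (fv v) x ≤ 2 * Real.log (Nv v)), Real.log (Nv v) ≤ hW (arr K n) x := by
      have e0 : ∑ v ∈ R.filter (fun v => ¬ Lam (fv v) x ≤ 2 * Real.log (Nv v)),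
          Real.log (Nv v) = ∑ v ∈ R, if ¬ Lam (fv v) x ≤ 2 * Real.log (Nv v) then
            Real.log (Nv v) else 0 := Finset.sum_filter _ _
      rw [hW1, e0, ← Finset.sum_add_distrib]
      have e1 : 0 ≤ ∑ w : InfinitePlace K, (w.mult : ℝ) * wt w.1 (arr K n) x :=
        Finset.sum_nonneg fun w _ => mul_nonneg (Nat.cast_nonneg _) (wt_nonneg _ _ _)
      have e2 : ∑ v ∈ R, (Real.log (Nv v) + if ¬ Lam (fv v) x ≤ 2 * Real.log (Nv v) then
          Real.log (Nv v) else 0) ≤ ∑ v ∈ R, wt (fv v) (arr K n) x := by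
        refine Finset.sum_le_sum fun v hv => ?_
        rw [hR, mem_filter] at hv
        have h3 := wt_ge v hx (hPe v hv.2.2)
        split_ifs with h
        · rw [add_zero]
          exact h3.1
        · have := h3.2 h
          linarith
      have e3 : ∑ v ∈ R, wt (fv v) (arr K n) x ≤ ∑ v ∈ T, wt (fv v) (arr K n) x :=
        Finset.sum_le_sum_of_subset_of_nonneg (Finset.filter_subset _ _)
          fun v _ _ => wt_nonneg _ _ _
      linarith
    have h3 := Finset.sum_filter_add_sum_filter_not R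
      (fun v => Lam (fv v) x ≤ 2 * Real.log (Nv v)) (fun v => Real.log (Nv v))
    rw [← Finset.mul_sum] at h1
    have h4 : 2 * N1 S (arr K n) x - hW (arr K n) x ≤ ∑ v ∈ R1, Real.log (Nv v) := by
      rw [hN1]
      linarith
    exact (mul_le_mul_of_nonneg_left h4 (by positivity)).trans h1

/-- the configurations for which the inequality holds for all twists -/
def Pers (K : Type) [Field K] [NumberField K] (g n : ℕ) (κ c B : ℝ) :
    Set (ℙ K (Fin (n + 1) → K)) :=
  {P | Function.Injective (root P.rep) ∧ Real.log P.mulHeight / Module.finrank ℚ K ≤ Real.log B ∧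
    ∀ d : K, d ≠ 0 → (discNorm g (pol d (root P.rep)) : ℝ) ≤
      c * (badNorm g (pol d (root P.rep)) : ℝ) ^ κ}

theorem pers_sub (K : Type) [Field K] [NumberField K] (hn : n + 1 = 2 * g) (hg : 2 ≤ g)
    (κ κ₀ c : ℝ) (hκ0 : 0 ≤ κ) (hc : 0 < c) (hκ₀0 : 0 ≤ κ₀)
    (hκ₀1 : κ₀ ≤ 1 / 2)
    (hκ₀ : 2 * κ₀ ≤ (1 - κ / (4 * g + 4)) * (n + 2) * (n + 1 - κ₀)) :
    ∃ (S : Finset (HeightOneSpectrum (𝓞 K))) (C' : ℝ), ∀ B : ℝ, 1 ≤ B → Pers K g n κ c B ⊆
      Exc S (arr K n) κ₀ C' (B ^ (Module.finrank ℚ K : ℝ)) := by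
  classical
  obtain ⟨S, c₂, hc₂, hmain⟩ := exists_bad_twist K hn hg
  set G : ℝ := 4 * g + 4 with hG
  have hG0 : 0 < G := by positivity
  refine ⟨S, (κ * c₂ + |Real.log c|) / G, fun B hB P hP => ?_⟩
  set C' : ℝ := (κ * c₂ + |Real.log c|) / G with hC'
  have hC0 : 0 ≤ C' := by positivity
  obtain ⟨hx, hH, hall⟩ := hP
  refine ⟨fun i => lin_ne hx ((Fintype.equivFin (Idx n)).symm i).2, height_le hB hH, ?_⟩
  by_contra hcon
  push Not at hcon
  obtain ⟨d, hd, h1, h2⟩ := hmain P.rep hx
  have h3 := height_le_hW S hx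
  have hbp := badNorm_pos hn hd hx
  have hbp' : (0 : ℝ) < badNorm g (pol d (root P.rep)) := by exact_mod_cast hbp
  have h4 : Real.log (discNorm g (pol d (root P.rep))) ≤ Real.log c +
      κ * Real.log (badNorm g (pol d (root P.rep))) := by
    have h5 := hall d hd
    have hdp : (0 : ℝ) < discNorm g (pol d (root P.rep)) := by
      have : 0 < discNorm g (pol d (root P.rep)) := by
        rw [discNorm_eq (finite_bad (hyp hn hd hx)).toFinset fun v hv => by simpa using hv]
        exact Finset.prod_pos fun v _ => Nat.pow_pos (one_le_absNorm v)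
      exact_mod_cast this
    have h6 := Real.log_le_log hdp h5
    rwa [Real.log_mul hc.ne' (Real.rpow_pos_of_pos hbp' κ).ne', Real.log_rpow hbp'] at h6
  rw [mulHeight_rep, ← logHeight_eq_log_mulHeight] at hcon
  set H := logHeight P.rep with hHdef
  have hH0 : 0 ≤ H := by
    rw [hHdef, logHeight_eq_log_mulHeight]
    exact Real.log_nonneg (one_le_mulHeight _)
  set N := N1 S (arr K n) P.rep with hN
  set W := hW (arr K n) P.rep with hW'
  set M := Real.log (badNorm g (pol d (root P.rep))) with hMdef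
  have hn' : (n : ℝ) + 1 = 2 * g := by exact_mod_cast hn
  have hg' : (2 : ℝ) ≤ g := by exact_mod_cast hg
  have hN0 : 0 ≤ N := by
    -- from the height inequality
    by_contra hneg
    push Not at hneg
    have h6 : 0 < (n : ℝ) + 1 - κ₀ := by linarith
    nlinarith [mul_nonneg h6.le hH0]
  -- (n+2)(n+1-κ₀) H ≤ 2 N - (n+2) C'
  have h5 : ((n : ℝ) + 2) * (n + 1 - κ₀) * H ≤ 2 * N - (n + 2) * C' := by nlinarith
  have h6 : 0 < ((n : ℝ) + 2) * (n + 1 - κ₀) := by
    apply mul_pos (by positivity)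
    linarith
  -- κ₀ H ≤ (1 - κ / G) N
  have h7 : κ₀ * H ≤ (1 - κ / G) * N := by
    have e1 : ((n : ℝ) + 2) * (n + 1 - κ₀) * H ≤ 2 * N := by
      have : 0 ≤ ((n : ℝ) + 2) * C' := by positivity
      linarith
    have e2 := mul_le_mul_of_nonneg_left e1 hκ₀0
    have e3 := mul_le_mul_of_nonneg_right hκ₀ hN0
    have e4 : (((n : ℝ) + 2) * (n + 1 - κ₀)) * (κ₀ * H) ≤
        (((n : ℝ) + 2) * (n + 1 - κ₀)) * ((1 - κ / G) * N) := by
      linarith
    exact le_of_mul_le_mul_left e4 h6
  have h8 : G * (2 * N - W) ≤ Real.log c + κ * M := h2.trans h4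
  have h9 : κ * M ≤ κ * (N + c₂) := mul_le_mul_of_nonneg_left h1 hκ0
  have h10 : G * (N - κ₀ * H + C') < G * (2 * N - W) + 0 := by
    rw [add_zero]
    exact mul_lt_mul_of_pos_left (by linarith) hG0
  have h11 : G * C' = κ * c₂ + |Real.log c| := by
    rw [hC']
    field_simp
  have h12 : G * (κ₀ * H) ≤ (G - κ) * N := by
    have := mul_le_mul_of_nonneg_left h7 hG0.le
    have e : G * ((1 - κ / G) * N) = (G - κ) * N := by
      field_simp
    linarith
  have h13 := le_abs_self (Real.log c)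
  nlinarith

end

end Pool.Agent.TH905.HS
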