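import Pool.Agent.TH905.HS.Comb
import Pool.Agent.W232.VA.LB

set_option autoImplicit false

/-!
The braid arrangement in projective space: local inequalities.
-/

namespace Pool.Agent.TH905.HS

open Finset NumberField IsDedekindDomain Pool.Agent.H691R3 Pool.Agent.W232.VA

section

variable {K : Type*} [Field K] {n : ℕ}

/-- the roots `0, x_0, ..., x_n` -/
def root (x : Fin (n + 1) → K) : Fin (n + 2) → K := Fin.cons 0 x

/-- the coefficients of the difference of two roots -/
def form (K : Type*) [Field K] {n : ℕ} (i j : Fin (n + 2)) : Fin (n + 1) → K :=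
  fun l => (if i = l.succ then 1 else 0) - (if j = l.succ then 1 else 0)

lemma lin_form (i j : Fin (n + 2)) (x : Fin (n + 1) → K) :
    lin (form K i j) x = root x i - root x j := by
  have h : ∀ i : Fin (n + 2), ∑ l : Fin (n + 1), (if i = l.succ then (1 : K) else 0) * x l =
      root x i := by
    intro i
    refine Fin.cases ?_ (fun i' => ?_) i
    · have : ∀ l : Fin (n + 1), (if (0 : Fin (n + 2)) = l.succ then (1 : K) else 0) * x l = 0 := by
        intro l
        rw [if_neg (Fin.succ_ne_zero l).symm, zero_mul]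
      rw [Finset.sum_congr rfl fun l _ => this l]
      simp [root]
    · have : ∀ l : Fin (n + 1), (if i'.succ = l.succ then (1 : K) else 0) * x l =
          if i' = l then x l else 0 := by
        intro l
        by_cases hl : i' = l
        · rw [if_pos hl, if_pos (by rw [hl]), one_mul]
        · rw [if_neg hl, if_neg fun h => hl (Fin.succ_injective _ h), zero_mul]
      rw [Finset.sum_congr rfl fun l _ => this l, Finset.sum_ite_eq, if_pos (mem_univ _)]
      simp [root]
  unfold lin form
  simp only [sub_mul]
  rw [Finset.sum_sub_distrib, h, h]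

lemma form_vals (f : AbsoluteValue K ℝ) {i j : Fin (n + 2)} (hij : i ≠ j) :
    (∀ l, f (form K i j l) ≤ 1) ∧ ∃ l, f (form K i j l) = 1 := by
  constructor
  · intro l
    unfold form
    by_cases h1 : i = l.succ
    · rw [if_pos h1, if_neg fun h2 => hij (h1.trans h2.symm), sub_zero, map_one]
    · rw [if_neg h1, zero_sub, map_neg_eq_map]
      split_ifs
      · rw [map_one]
      · rw [map_zero]; exact zero_le_one
  · by_cases hi : i = 0
    · have hj : j ≠ 0 := fun h => hij (hi.trans h.symm)
      obtain ⟨l, rfl⟩ := Fin.exists_succ_eq.mpr hj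
      refine ⟨l, ?_⟩
      unfold form
      rw [if_neg hij, if_pos rfl, zero_sub, map_neg_eq_map, map_one]
    · obtain ⟨l, rfl⟩ := Fin.exists_succ_eq.mpr hi
      refine ⟨l, ?_⟩
      unfold form
      rw [if_pos rfl, if_neg hij.symm, sub_zero, map_one]

lemma sup_form (f : AbsoluteValue K ℝ) {i j : Fin (n + 2)} (hij : i ≠ j) :
    (⨆ l, f (form K i j l)) = 1 := by
  obtain ⟨h1, l, hl⟩ := form_vals f hij
  apply le_antisymm
  · exact ciSup_le h1
  · rw [← hl]; exact sup_le_of f _ l

lemma form_ne {i j : Fin (n + 2)} (hij : i ≠ j) : form K i j ≠ 0 := by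
  classical
  intro h
  obtain ⟨_, l, hl⟩ := form_vals (AbsoluteValue.trivial : AbsoluteValue K ℝ) hij
  rw [h, Pi.zero_apply, map_zero] at hl
  exact zero_ne_one hl

lemma lam_form (f : AbsoluteValue K ℝ) {i j : Fin (n + 2)} (hij : i ≠ j) (x : Fin (n + 1) → K) :
    lam f (form K i j) x = Real.log ((⨆ l, f (x l)) / f (root x i - root x j)) := by
  unfold Pool.Agent.W232.VA.lam
  rw [sup_form f hij, lin_form, one_mul]

lemma lam_form_symm (f : AbsoluteValue K ℝ) {i j : Fin (n + 2)} (hij : i ≠ j)
    (x : Fin (n + 1) → K) : lam f (form K i j) x = lam f (form K j i) x := by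
  rw [lam_form f hij, lam_form f hij.symm, ← map_neg_eq_map f (root x i - root x j), neg_sub]

lemma root_le (f : AbsoluteValue K ℝ) (x : Fin (n + 1) → K) (i : Fin (n + 2)) :
    f (root x i) ≤ ⨆ l, f (x l) := by
  refine Fin.cases ?_ (fun i' => ?_) i
  · simp only [root, Fin.cons_zero, map_zero]
    exact (f.nonneg _).trans (sup_le_of f x 0)
  · simp only [root, Fin.cons_succ]
    exact sup_le_of f x i'

/-- pairs of different indices -/
abbrev Idx (n : ℕ) : Type := {p : Fin (n + 2) × Fin (n + 2) // p.1 ≠ p.2}

/-- the braid arrangement -/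
noncomputable def arr (K : Type*) [Field K] (n : ℕ) (k : Fin (Fintype.card (Idx n))) :
    Fin (n + 1) → K :=
  form K ((Fintype.equivFin (Idx n)).symm k).1.1 ((Fintype.equivFin (Idx n)).symm k).1.2

lemma arr_ne (k : Fin (Fintype.card (Idx n))) : arr K n k ≠ 0 :=
  form_ne ((Fintype.equivFin (Idx n)).symm k).2

lemma arr_equiv (p : Idx n) : arr K n (Fintype.equivFin (Idx n) p) = form K p.1.1 p.1.2 := by
  unfold arr
  rw [Equiv.symm_apply_apply]

/-- the forms of a spanning tree are linearly independent -/
lemma tree_LI (T : Fin (n + 1) → Idx n)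
    (hT : ∀ e : Fin (n + 2) → K, e 0 = 0 → (∀ k, e (T k).1.1 = e (T k).1.2) → ∀ i, e i = 0) :
    LinearIndependent K fun k => form K (T k).1.1 (T k).1.2 := by
  set M : Matrix (Fin (n + 1)) (Fin (n + 1)) K := fun k => form K (T k).1.1 (T k).1.2 with hM
  have hinj : Function.Injective M.mulVec := by
    have h0 : ∀ y : Fin (n + 1) → K, M.mulVec y = 0 → y = 0 := by
      intro y hy
      have h1 : ∀ k, root y (T k).1.1 = root y (T k).1.2 := by
        intro k
        have := congrFun hy k
        rw [← sub_eq_zero, ← lin_form]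
        exact this
      have h2 := hT (root y) (by simp [root]) h1
      funext l
      have := h2 l.succ
      simpa [root] using this
    intro y z hyz
    have := h0 (y - z) (by
      have h3 := Matrix.mulVec_sub M y z
      rw [h3]
      exact sub_eq_zero.mpr hyz)
    exact sub_eq_zero.mp this
  have hunit := Matrix.mulVec_injective_iff_isUnit.mp hinj
  exact Matrix.linearIndependent_rows_iff_isUnit.mpr hunit

/-- a spanning tree gives a lower bound for `wt` -/
lemma tree_le (f : AbsoluteValue K ℝ) (x : Fin (n + 1) → K) (T : Fin (n + 1) → Idx n)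
    (hT : ∀ e : Fin (n + 2) → K, e 0 = 0 → (∀ k, e (T k).1.1 = e (T k).1.2) → ∀ i, e i = 0) :
    ∑ k, lam f (form K (T k).1.1 (T k).1.2) x ≤ wt f (arr K n) x := by
  classical
  have hLI := tree_LI T hT
  set E := Fintype.equivFin (Idx n) with hE
  have hTinj : Function.Injective fun k => E (T k) := by
    intro k k' h
    apply hLI.injective
    have := E.injective h
    simp only [this]
  set I : Finset (Fin (Fintype.card (Idx n))) := univ.image fun k => E (T k) with hI
  have hLI2 : LinearIndependent K (fun i : I => arr K n i) := by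
    let ψ : Fin (n + 1) ≃ I := Equiv.ofBijective
      (fun k => ⟨E (T k), Finset.mem_image_of_mem _ (mem_univ k)⟩) ⟨by
        intro k k' h
        exact hTinj (Subtype.ext_iff.mp h), by
        rintro ⟨i, hi⟩
        obtain ⟨k, _, hk⟩ := Finset.mem_image.mp hi
        exact ⟨k, Subtype.ext hk⟩⟩
    rw [← linearIndependent_equiv ψ]
    have : ((fun i : I => arr K n i) ∘ ψ) = fun k => form K (T k).1.1 (T k).1.2 := by
      funext k
      exact arr_equiv (T k)
    rw [this]
    exact hLI
  have h := le_wt f (arr K n) x I hLI2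
  rw [hI, Finset.sum_image fun k _ k' _ h => hTinj h] at h
  refine le_trans (le_of_eq ?_) h
  exact Finset.sum_congr rfl fun k _ => by rw [arr_equiv]

/-- the sum of the local heights over all ordered pairs -/
noncomputable def Lam (f : AbsoluteValue K ℝ) (x : Fin (n + 1) → K) : ℝ :=
  ∑ i, ∑ j ∈ univ.erase i, lam f (form K i j) x

/-- stars -/
lemma star_le (f : AbsoluteValue K ℝ) (x : Fin (n + 1) → K) :
    Lam f x ≤ (n + 2) * wt f (arr K n) x := by
  classical
  have h1 : ∀ i : Fin (n + 2), ∑ j ∈ univ.erase i, lam f (form K i j) x ≤ wt f (arr K n) x := by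
    intro i
    have h2 := tree_le f x (fun k => ⟨(i, i.succAbove k), (Fin.succAbove_ne i k).symm⟩) (by
      intro e h0 he
      have h3 : ∀ j, e j = e i := by
        intro j
        by_cases hj : j = i
        · rw [hj]
        · obtain ⟨k, rfl⟩ := Fin.exists_succAbove_eq hj
          exact (he k).symm
      intro j
      rw [h3 j, ← h3 0, h0])
    refine le_trans (le_of_eq ?_) h2
    have h4 : univ.erase i = univ.image i.succAbove := by
      ext j
      simp only [mem_erase, mem_univ, and_true, mem_image, true_and]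
      constructor
      · intro h
        obtain ⟨k, hk⟩ := Fin.exists_succAbove_eq h
        exact ⟨k, hk⟩
      · rintro ⟨k, rfl⟩
        exact Fin.succAbove_ne i k
    rw [h4, Finset.sum_image fun k _ k' _ h => Fin.succAbove_right_injective h]
  unfold Lam
  refine (Finset.sum_le_sum fun i _ => h1 i).trans ?_
  rw [Finset.sum_const, Finset.card_univ, Fintype.card_fin, nsmul_eq_mul]
  push_cast
  exact le_rfl

end

section fin

variable {K : Type*} [Field K] [NumberField K] {n : ℕ}

lemma fv_sub_le (v : HeightOneSpectrum (𝓞 K)) (a b : K) : fv v (a - b) ≤ max (fv v a) (fv v b) := by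
  have := fv_na v a (-b)
  rwa [← sub_eq_add_neg, map_neg_eq_map] at this

lemma rep_ne {x : Fin (n + 1) → K} (hx : Function.Injective (root x)) (l : Fin (n + 1)) :
    x l ≠ 0 := by
  intro h
  have : root x l.succ = root x 0 := by simp [root, h]
  exact Fin.succ_ne_zero l (hx this)

lemma rep_ne' {x : Fin (n + 1) → K} (hx : Function.Injective (root x)) : x ≠ 0 := by
  intro h
  exact rep_ne hx 0 (by rw [h]; rfl)

lemma lin_ne {x : Fin (n + 1) → K} (hx : Function.Injective (root x)) {i j : Fin (n + 2)}
    (hij : i ≠ j) : lin (form K i j) x ≠ 0 := by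
  rw [lin_form, sub_ne_zero]
  exact hx.ne hij

lemma Lam_nonneg (v : HeightOneSpectrum (𝓞 K)) {x : Fin (n + 1) → K}
    (hx : Function.Injective (root x)) : 0 ≤ Lam (fv v) x := by
  refine Finset.sum_nonneg fun i _ => Finset.sum_nonneg fun j hj => ?_
  have hij : i ≠ j := (Finset.ne_of_mem_erase hj).symm
  exact lam_fin_nonneg v (form_ne hij) (rep_ne' hx) (lin_ne hx hij)

/-- the local inequality at a finite place at which two roots are congruent -/
theorem local_main (v : HeightOneSpectrum (𝓞 K)) {x : Fin (n + 1) → K}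
    (hx : Function.Injective (root x)) (hpos : ∃ i j, i ≠ j ∧ 0 < lam (fv v) (form K i j) x) :
    Lam (fv v) x + n * Real.log (Nv v) ≤ (n + 2) * wt (fv v) (arr K n) x := by
  classical
  have hN := log_Nv_pos v
  have hk : ∀ i j : Fin (n + 2), ∃ k : ℕ, i ≠ j → lam (fv v) (form K i j) x = k * Real.log (Nv v) := by
    intro i j
    by_cases hij : i ≠ j
    · obtain ⟨k, hk⟩ := lam_fin v (form_ne hij) (rep_ne' hx) (lin_ne hx hij)
      exact ⟨k, fun _ => hk⟩
    · exact ⟨0, fun h => absurd h hij⟩
  choose w' hw' using hk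
  set w : Fin (n + 2) → Fin (n + 2) → ℕ := fun i j => if i = j then 0 else w' i j with hw
  have hwl : ∀ i j, i ≠ j → lam (fv v) (form K i j) x = w i j * Real.log (Nv v) := by
    intro i j hij
    simp only [hw, if_neg hij]
    exact hw' i j hij
  have hle : ∀ {i j i' j' : Fin (n + 2)}, i ≠ j → i' ≠ j' →
      (w i j ≤ w i' j' ↔ lam (fv v) (form K i j) x ≤ lam (fv v) (form K i' j') x) := by
    intro i j i' j' h h'
    rw [hwl i j h, hwl i' j' h', mul_le_mul_iff_left₀ hN, Nat.cast_le]
  have hU : Ultra w := by
    refine ⟨fun i j => ?_, fun i j k hij hjk hik => ?_⟩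
    · by_cases hij : i = j
      · rw [hij]
      · apply le_antisymm
        · rw [hle hij (Ne.symm hij), lam_form_symm _ hij]
        · rw [hle (Ne.symm hij) hij, lam_form_symm _ hij]
    · have hsup : 0 < ⨆ l, fv v (x l) := sup_pos (fv v) (rep_ne' hx)
      have hd : ∀ {i j : Fin (n + 2)}, i ≠ j → 0 < fv v (root x i - root x j) := fun h =>
        (fv v).pos (sub_ne_zero.mpr (hx.ne h))
      have hcmp : ∀ {i j i' j' : Fin (n + 2)}, i ≠ j → i' ≠ j' →
          fv v (root x i - root x j) ≤ fv v (root x i' - root x j') →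
          lam (fv v) (form K i' j') x ≤ lam (fv v) (form K i j) x := by
        intro i j i' j' h h' hle
        rw [lam_form _ h, lam_form _ h']
        exact Real.log_le_log (div_pos hsup (hd h')) (div_le_div_of_nonneg_left hsup.le (hd h) hle)
      have h3 : fv v (root x i - root x k) ≤
          max (fv v (root x i - root x j)) (fv v (root x j - root x k)) := by
        have := fv_na v (root x i - root x j) (root x j - root x k)
        rwa [sub_add_sub_cancel] at this
      rcases le_max_iff.mp h3 with h4 | h4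
      · exact (min_le_left _ _).trans ((hle hij hik).mpr (hcmp hik hij h4))
      · exact (min_le_right _ _).trans ((hle hjk hik).mpr (hcmp hik hjk h4))
  -- the parents
  have hpar : ∀ k : Fin (n + 1), ∃ p : Fin (n + 2), p < k.succ ∧
      ∀ j, j < k.succ → w k.succ j ≤ w k.succ p := by
    intro k
    obtain ⟨p, hp, hmax⟩ := Finset.exists_max_image (univ.filter fun j : Fin (n + 2) => j < k.succ)
      (fun j => w k.succ j) ⟨0, by simp⟩
    rw [mem_filter] at hp
    exact ⟨p, hp.2, fun j hj => hmax j (by simpa using hj)⟩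
  choose p hp hmax using hpar
  have h0 : ∃ i j, i ≠ j ∧ w i j = 0 := by
    obtain ⟨l, hl⟩ := sup_att (fv v) x
    refine ⟨l.succ, 0, Fin.succ_ne_zero l, ?_⟩
    have e1 := hwl l.succ 0 (Fin.succ_ne_zero l)
    rw [lam_form _ (Fin.succ_ne_zero l), hl] at e1
    have e2 : root x l.succ - root x 0 = x l := by simp [root]
    rw [e2, div_self ((fv v).pos (rep_ne hx l)).ne', Real.log_one] at e1
    have e3 := (mul_eq_zero.mp e1.symm).resolve_right hN.ne'
    exact_mod_cast e3
  have h1 : ∃ i j, i ≠ j ∧ 0 < w i j := by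
    obtain ⟨i, j, hij, hpos⟩ := hpos
    refine ⟨i, j, hij, ?_⟩
    rw [hwl i j hij] at hpos
    have := pos_of_mul_pos_left hpos hN.le
    exact_mod_cast this
  have hmain := ultra_main hU p hp hmax h0 h1
  have htree := tree_le (fv v) x (fun k => ⟨(k.succ, p k), (hp k).ne'⟩) (by
    intro e he0 he
    have : ∀ (N : ℕ) (i : Fin (n + 2)), i.val = N → e i = 0 := by
      intro N
      induction N using Nat.strong_induction_on with
      | _ N ih =>
        intro i hi
        by_cases hi0 : i = 0
        · rw [hi0, he0]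
        · obtain ⟨k, rfl⟩ := Fin.exists_succ_eq.mpr hi0
          rw [he k]
          exact ih (p k).val (by rw [← hi]; exact hp k) _ rfl
    exact fun i => this i.val i rfl)
  simp only at htree
  rw [Finset.sum_congr rfl fun k _ => hwl k.succ (p k) (hp k).ne', ← Finset.sum_mul] at htree
  have hLam : Lam (fv v) x = (∑ i, ∑ j ∈ univ.erase i, (w i j : ℝ)) * Real.log (Nv v) := by
    unfold Lam
    rw [Finset.sum_mul]
    refine Finset.sum_congr rfl fun i _ => ?_
    rw [Finset.sum_mul]
    exact Finset.sum_congr rfl fun j hj => hwl i j (Finset.ne_of_mem_erase hj).symm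
  have hmain' : (∑ i, ∑ j ∈ univ.erase i, (w i j : ℝ)) + (n + 2) ≤
      2 + (n + 2) * ∑ k, (w (Fin.succ k) (p k) : ℝ) := by exact_mod_cast hmain
  rw [hLam]
  have h5 := mul_le_mul_of_nonneg_right hmain' hN.le
  have h6 := mul_le_mul_of_nonneg_left htree (by positivity : (0 : ℝ) ≤ (n : ℝ) + 2)
  nlinarith

end fin

end Pool.Agent.TH905.HS
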