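import Pool.Agent.W318.GlobalSzp
import Pool.Agent.H691R3.Places

set_option autoImplicit false

/-!
Hyperelliptic curves with rational Weierstrass points: reduction at odd places.
-/

namespace Pool.Agent.TH905.HS

open Polynomial Finset NumberField IsDedekindDomain WithZero Pool.Agent.W318

section val

variable {K : Type*} [Field K] [NumberField K]

lemma fv_of_exp (v : HeightOneSpectrum (𝓞 K)) {x : K} {k : ℤ} (h : v.valuation K x = exp k) :
    Pool.Agent.H691R3.fv v x = Pool.Agent.H691R3.Nv v ^ k := by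
  have hx : x ≠ 0 := by
    rintro rfl
    rw [map_zero] at h
    exact exp_ne_zero h.symm
  have h1 : Pool.Agent.H691R3.fv v x = _ :=
    NumberField.FinitePlace.norm_embedding' (v := v) (x := x)
  have hx' : v.valuation K x ≠ 0 := (Valuation.ne_zero_iff _).mpr hx
  rw [WithZeroMulInt.toNNReal_neg_apply _ hx'] at h1
  have h2 : Multiplicative.toAdd (WithZero.unzero hx') = k := by
    have : WithZero.unzero hx' = Multiplicative.ofAdd k := by
      apply WithZero.coe_injective
      rw [WithZero.coe_unzero, h]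
      rfl
    rw [this]
    rfl
  rw [h1, h2]
  push_cast
  rfl

end val

/-- the coefficients of the linear factors, the first one at infinity -/
def al (k : Type*) [Field k] (m : ℕ) : Fin (m + 1) → k := Fin.cons 0 fun _ => 1

/-- the constant terms of the linear factors -/
def be {k : Type*} [Field k] {m : ℕ} (e : Fin m → k) : Fin (m + 1) → k := Fin.cons 1 fun i => -e i

/-- the polynomial with the given roots -/
noncomputable def pol {k : Type*} [Field k] {m : ℕ} (d : k) (e : Fin m → k) : k[X] :=
  C d * ∏ i, (X - C (e i))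

section pol

variable {k : Type*} [Field k] {m : ℕ}

lemma pol_eq (d : k) (e : Fin m → k) :
    pol d e = C d * ∏ i, (C (al k m i) * X + C (be e i)) := by
  unfold pol al be
  rw [Fin.prod_univ_succ]
  simp only [Fin.cons_zero, Fin.cons_succ, C_0, zero_mul, zero_add, C_1, one_mul, C_neg]
  congr 1

lemma det_eq (e : Fin m → k) (i j : Fin (m + 1)) :
    al k m i * be e j - al k m j * be e i =
      Fin.cases (motive := fun _ => k)
        (Fin.cases (motive := fun _ => k) 0 (fun _ => -1) j)
        (fun i' => Fin.cases (motive := fun _ => k) 1 (fun j' => e i' - e j') j) i := by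
  refine Fin.cases ?_ (fun i' => ?_) i <;> refine Fin.cases ?_ (fun j' => ?_) j <;>
    simp [al, be] <;> ring

lemma det_ne {e : Fin m → k} (he : Function.Injective e) (i j : Fin (m + 1)) (hij : i ≠ j) :
    al k m i * be e j - al k m j * be e i ≠ 0 := by
  rw [det_eq]
  revert hij
  refine Fin.cases ?_ (fun i' => ?_) i <;> refine Fin.cases ?_ (fun j' => ?_) j <;> intro hij
  · exact absurd rfl hij
  · simp
  · simp
  · simp only [Fin.cases_succ]
    rw [sub_ne_zero]
    exact fun h => hij (congrArg Fin.succ (he h))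

lemma pol_isHyp {g : ℕ} (hm : m = 2 * g + 1) {d : k} (hd : d ≠ 0) {e : Fin m → k}
    (he : Function.Injective e) : IsHyp g (pol d e) := by
  have hdeg : (pol d e).natDegree = m := by
    unfold pol
    rw [natDegree_C_mul hd, natDegree_finsetProd_X_sub_C_eq_card, Finset.card_univ,
      Fintype.card_fin]
  refine ⟨?_, Or.inl (by rw [hdeg, hm])⟩
  have hsep : (∏ i, (X - C (e i)) : k[X]).Separable := by
    rw [separable_prod_X_sub_C_iff]
    exact he
  unfold pol
  have huC : IsUnit (C d : k[X]) := isUnit_C.mpr hd.isUnit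
  rw [(associated_isUnit_mul_left_iff huC).mpr (Associated.refl _) |>.squarefree_iff]
  exact hsep.squarefree

end pol

lemma prod_eq_of_le {ι : Type*} (s : Finset ι) (f h : ι → ℝ) (hf : ∀ i ∈ s, 0 < f i)
    (hle : ∀ i ∈ s, f i ≤ h i) (hp : ∏ i ∈ s, h i ≤ ∏ i ∈ s, f i) : ∀ i ∈ s, f i = h i := by
  intro i hi
  by_contra hne
  have := Finset.prod_lt_prod hf hle ⟨i, hi, lt_of_le_of_ne (hle i hi) hne⟩
  linarith

/-- abstract extremal case of the discriminant inequality -/
lemma extremal {k : Type*} [Field k] {m : ℕ} (A : AbsoluteValue k ℝ) (hna : IsNonarchimedean A)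
    (u : k) (hu : u ≠ 0) (α β : Fin (m + 1) → k)
    (hne : ∀ i j, i ≠ j → α i * β j - α j * β i ≠ 0)
    (h1 : A u * ∏ i, max (A (α i)) (A (β i)) ≤ 1)
    (h2 : A u ^ (2 * m) * ∏ i, ∏ j ∈ univ.erase i, A (α i * β j - α j * β i) = 1) :
    ∀ i j, i ≠ j → A (α i * β j - α j * β i) =
      max (A (α i)) (A (β i)) * max (A (α j)) (A (β j)) := by
  classical
  set μ : Fin (m + 1) → ℝ := fun i => max (A (α i)) (A (β i)) with hμ
  have hμ0 : ∀ i, 0 ≤ μ i := fun i => (A.nonneg _).trans (le_max_left _ _)
  have hle : ∀ i j, A (α i * β j - α j * β i) ≤ μ i * μ j := by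
    intro i j
    refine (na_sub_le hna _ _).trans (max_le ?_ ?_)
    · rw [map_mul]
      exact mul_le_mul (le_max_left _ _) (le_max_right _ _) (A.nonneg _) (hμ0 i)
    · rw [map_mul, mul_comm (μ i)]
      exact mul_le_mul (le_max_left _ _) (le_max_right _ _) (A.nonneg _) (hμ0 j)
  have hpos : ∀ i j, i ≠ j → 0 < A (α i * β j - α j * β i) := fun i j hij => A.pos (hne i j hij)
  have hQ : ∏ i, ∏ j ∈ univ.erase i, (μ i * μ j) = (∏ i, μ i) ^ (2 * m) := by
    have e1 : ∀ i : Fin (m + 1), ∏ j ∈ univ.erase i, (μ i * μ j) =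
        μ i ^ m * ∏ j ∈ univ.erase i, μ j := by
      intro i
      rw [Finset.prod_mul_distrib, Finset.prod_const, Finset.card_erase_of_mem (mem_univ _),
        Finset.card_univ, Fintype.card_fin, Nat.add_sub_cancel]
    rw [Finset.prod_congr rfl fun i _ => e1 i, Finset.prod_mul_distrib, Finset.prod_pow]
    have e2 : ∏ i : Fin (m + 1), ∏ j ∈ univ.erase i, μ j = (∏ i, μ i) ^ m := by
      have e3 : ∀ i : Fin (m + 1), ∏ j ∈ univ.erase i, μ j =
          ∏ j, if j = i then 1 else μ j := by
        intro i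
        rw [← Finset.mul_prod_erase univ (fun j => if j = i then 1 else μ j) (mem_univ i),
          if_pos rfl, one_mul]
        exact Finset.prod_congr rfl fun j hj => (if_neg (Finset.ne_of_mem_erase hj)).symm
      rw [Finset.prod_congr rfl fun i _ => e3 i, Finset.prod_comm, ← Finset.prod_pow]
      refine Finset.prod_congr rfl fun j _ => ?_
      rw [← Finset.mul_prod_erase univ (fun i => if j = i then 1 else μ j) (mem_univ j),
        if_pos rfl, one_mul,
        Finset.prod_congr rfl fun i hi => if_neg (Finset.ne_of_mem_erase hi).symm,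
        Finset.prod_const, Finset.card_erase_of_mem (mem_univ _), Finset.card_univ,
        Fintype.card_fin, Nat.add_sub_cancel]
    rw [e2, ← pow_add]
    congr 1
    ring
  have hu0 : 0 < A u := A.pos hu
  have hbig : A u ^ (2 * m) * ∏ i, ∏ j ∈ univ.erase i, (μ i * μ j) ≤ 1 := by
    rw [hQ, ← mul_pow]
    exact pow_le_one₀ (mul_nonneg hu0.le (Finset.prod_nonneg fun i _ => hμ0 i)) h1
  have hcmp : ∏ i, ∏ j ∈ univ.erase i, (μ i * μ j) ≤
      ∏ i, ∏ j ∈ univ.erase i, A (α i * β j - α j * β i) := by
    rw [← h2] at hbig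
    exact le_of_mul_le_mul_left hbig (pow_pos hu0 _)
  have hrow := prod_eq_of_le univ (fun i => ∏ j ∈ univ.erase i, A (α i * β j - α j * β i))
    (fun i => ∏ j ∈ univ.erase i, (μ i * μ j))
    (fun i _ => Finset.prod_pos fun j hj => hpos i j (Finset.ne_of_mem_erase hj).symm)
    (fun i _ => Finset.prod_le_prod (fun j _ => A.nonneg _) fun j _ => hle i j) hcmp
  intro i j hij
  have hrow' := hrow i (mem_univ i)
  exact prod_eq_of_le (univ.erase i) (fun j => A (α i * β j - α j * β i))
    (fun j => μ i * μ j) (fun j hj => hpos i j (Finset.ne_of_mem_erase hj).symm)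
    (fun j _ => hle i j) hrow'.ge j (Finset.mem_erase.mpr ⟨hij.symm, mem_univ j⟩)

section good

variable {K : Type} [Field K] [NumberField K]

/-- at an odd place of good reduction all differences of the roots have the same size -/
theorem equal_of_good {g m : ℕ} (hg : 2 ≤ g) (hm : m = 2 * g + 1) {d : K} (hd : d ≠ 0)
    {e : Fin m → K} (he : Function.Injective e) (v : HeightOneSpectrum (𝓞 K))
    (h2 : v.valuation K (2 : K) = 1) (h0 : minExp g (pol d e) v = 0) :
    ∀ i j i' j' : Fin m, i ≠ j → i' ≠ j' →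
      v.valuation K (e i - e j) = v.valuation K (e i' - e j') := by
  classical
  have hF := pol_isHyp hm hd he
  obtain ⟨f, f₂, hM, hn⟩ := exists_min_model hF v
  rw [h0] at hn
  obtain ⟨φ⟩ := hM.iso
  have hbr := bridge hg hF.1 hF.2 hM.upper φ
  set G := 4 * f + f₂ ^ 2 with hG
  have hgood : GoodForm (g + 1) G := hbr.good (by omega) hF.good
  have hint := int_comb v hM.int hM.int₂
  have h4 : (1 / 4 : K) ≠ 0 := by norm_num
  have hv4 : v.valuation K (1 / 4 : K) = 1 := by
    have : (1 / 4 : K) = (2 * 2)⁻¹ := by norm_num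
    rw [this, map_inv₀, map_mul, h2, one_mul, inv_one]
  have hdisc : v.valuation K (discN (g + 1 + (g + 1)) G) = 1 := by
    rw [modelDisc_eq, four_mul_form, discN_C_mul (by omega) h4 hgood.2, map_mul, map_mul,
      map_pow, map_pow, h2, hv4, one_pow, one_pow, one_mul, one_mul] at hn
    rw [hn]
    simp
  have hnn : g + 1 + (g + 1) = m + 1 := by omega
  obtain ⟨a, b, c, d', l, hdet, hl, hGe⟩ := hbr
  rw [hnn] at hGe hdisc
  have hcd : c ≠ 0 ∨ d' ≠ 0 := by
    by_contra hcon
    push Not at hcon
    exact hdet (by rw [hcon.1, hcon.2]; ring)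
  rw [pol_eq, act_prod (m + 1) hcd, ← mul_assoc, ← C_mul] at hGe
  set α' : Fin (m + 1) → K := fun i => al K m i * a + be e i * c with hα'
  set β' : Fin (m + 1) → K := fun i => al K m i * b + be e i * d' with hβ'
  have hdet' : ∀ i j, α' i * β' j - α' j * β' i =
      (a * d' - b * c) * (al K m i * be e j - al K m j * be e i) := by
    intro i j
    simp only [hα', hβ']
    ring
  have hne' : ∀ i j, i ≠ j → α' i * β' j - α' j * β' i ≠ 0 := by
    intro i j hij
    rw [hdet']
    exact mul_ne_zero hdet (det_ne he i j hij)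
  have hu : l ^ 2 * d ≠ 0 := mul_ne_zero (pow_ne_zero 2 hl) hd
  have hna := absW_na v
  have hA1 : absW v (l ^ 2 * d) * ∏ i, max (absW v (α' i)) (absW v (β' i)) ≤ 1 := by
    have e1 : G.gaussNorm (absW v) 1 ≤ 1 :=
      (gaussNorm_le_one_iff _).mpr fun i => (absW_le_one_iff v _).mpr (hint i)
    rw [hGe, gaussNorm_prod_lin hna] at e1
    exact e1
  have hA2 : absW v (l ^ 2 * d) ^ (2 * m) *
      ∏ i, ∏ j ∈ univ.erase i, absW v (α' i * β' j - α' j * β' i) = 1 := by
    have e1 := abs_discN_prod_lin (absW v) hu α' β' hne' (by rw [Fintype.card_fin]; omega)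
    rw [Fintype.card_fin, Nat.add_sub_cancel] at e1
    rw [← e1, ← hGe]
    have := absW_exp v (k := 0) (x := discN (m + 1) G) (by rw [hdisc, exp_zero])
    rw [this, zpow_zero]
  have hex := extremal (absW v) hna _ hu α' β' hne' hA1 hA2
  set μ : Fin (m + 1) → ℝ := fun i => max (absW v (α' i)) (absW v (β' i)) with hμ
  have hD : 0 < absW v (a * d' - b * c) := (absW v).pos hdet
  have h00 : ∀ j : Fin m, absW v (a * d' - b * c) = μ 0 * μ j.succ := by
    intro j
    have := hex 0 j.succ (Fin.succ_ne_zero j).symm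
    rw [hdet', map_mul, det_eq] at this
    simpa using this
  have hμ0 : 0 < μ 0 ∨ m = 0 := by
    left
    have := h00 ⟨0, by omega⟩
    have h3 : 0 ≤ μ 0 := ((absW v).nonneg _).trans (le_max_left _ _)
    rcases h3.lt_or_eq with h4 | h4
    · exact h4
    · rw [← h4, zero_mul] at this
      rw [this] at hD
      exact absurd hD (lt_irrefl _)
  have hμ0' : 0 < μ 0 := hμ0.resolve_right (by omega)
  have hij : ∀ i j : Fin m, i ≠ j → absW v (a * d' - b * c) * absW v (e i - e j) =
      μ i.succ * μ j.succ := by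
    intro i j hij
    have := hex i.succ j.succ (fun h => hij (Fin.succ_injective _ h))
    rw [hdet', map_mul, det_eq] at this
    simpa using this
  have hμs : ∀ i : Fin m, μ i.succ = absW v (a * d' - b * c) / μ 0 := by
    intro i
    rw [h00 i]
    field_simp
  intro i j i' j' h h'
  have e1 := hij i j h
  have e2 := hij i' j' h'
  rw [hμs, hμs] at e1 e2
  have e3 : absW v (e i - e j) = absW v (e i' - e j') := by
    have := e1.trans e2.symm
    exact mul_left_cancel₀ hD.ne' this
  apply le_antisymm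
  · obtain ⟨k1, hk1⟩ := exists_exp v (sub_ne_zero.mpr (he.ne h') : e i' - e j' ≠ 0)
    rw [hk1, ← absW_le_iff, e3, absW_exp v hk1]
  · obtain ⟨k1, hk1⟩ := exists_exp v (sub_ne_zero.mpr (he.ne h) : e i - e j ≠ 0)
    rw [hk1, ← absW_le_iff, ← e3, absW_exp v hk1]

end good

end Pool.Agent.TH905.HS
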